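import Pool.Agent.MP_ca0a54_nt.H24.Spec
import Pool.Agent.MP_ca0a54_nt.L0.Zeros
import Pool.Agent.MP_ca0a54_nt.L0.Factor

open Complex MeasureTheory Filter Topology

namespace Pool.Agent.MP_ca0a54_nt.H24

open Pool.Agent.MP_ca0a54_nt.L0

/-- Separated points whose surrounding intervals lie in a set of small measure are few. -/
theorem card_mul_le (V : Finset ℝ) (a M : ℝ) (ha : 0 < a) (hM : 0 ≤ M) (S : Set ℝ)
    (hS : volume S ≤ ENNReal.ofReal M)
    (sep : ∀ u ∈ V, ∀ u' ∈ V, u ≠ u' → a ≤ |u - u'|)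
    (hin : ∀ u ∈ V, Set.Ioo (u - a / 2) (u + a / 2) ⊆ S) : (V.card : ℝ) * a ≤ M := by
  have hd : Set.PairwiseDisjoint (V : Set ℝ) fun u => Set.Ioo (u - a / 2) (u + a / 2) := by
    intro u hu u' hu' hne
    have h := sep u hu u' hu' hne
    refine Set.disjoint_left.2 fun x h1 h2 => ?_
    have h3 : |u - u'| < a := by
      rw [abs_lt]
      constructor <;> linarith [h1.1, h1.2, h2.1, h2.2]
    linarith
  have h1 := measure_biUnion_finset (μ := volume) hd fun u _ => measurableSet_Ioo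
  have h2 : volume (⋃ u ∈ V, Set.Ioo (u - a / 2) (u + a / 2)) ≤ ENNReal.ofReal M :=
    (measure_mono (Set.iUnion₂_subset hin)).trans hS
  rw [h1] at h2
  have h3 : ∀ u ∈ V, volume (Set.Ioo (u - a / 2) (u + a / 2)) = ENNReal.ofReal a := by
    intro u _
    rw [Real.volume_Ioo]
    congr 1
    ring
  rw [Finset.sum_congr rfl h3, Finset.sum_const, nsmul_eq_mul, ← ENNReal.ofReal_natCast,
    ← ENNReal.ofReal_mul (Nat.cast_nonneg _)] at h2
  exact (ENNReal.ofReal_le_ofReal_iff hM).1 h2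

theorem zero_mem {T δ : ℝ} {U : Finset ℝ} (hU : Clean T δ U) {ρ : ℂ} (h : riemannZeta ρ = 0)
    (h1 : T ≤ ρ.im) (h2 : ρ.im ≤ 2 * T) : ρ.im ∈ U := by
  have hw : (-I * (ρ - 1 / 2)).re = ρ.im := by simp
  have hz : zf (-I * (ρ - 1 / 2)) = 0 := by
    unfold zf
    have : (1 / 2 + I * (-I * (ρ - 1 / 2)) : ℂ) = ρ := by
      linear_combination (-(ρ - 1 / 2)) * I_sq
    rw [this, h]
  obtain ⟨u, hu, e⟩ := (hU.zeros _ (hw ▸ h1) (hw ▸ h2)).1 hz
  have : ρ.im = u := by rw [← hw, e, ofReal_re]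
  exact this ▸ hu

theorem mem_zero {T δ : ℝ} {U : Finset ℝ} (hU : Clean T δ U) {u : ℝ} (hu : u ∈ U) :
    riemannZeta (1 / 2 + I * u) = 0 :=
  (hU.zeros u (by simpa using (hU.mem u hu).1) (by simpa using (hU.mem u hu).2)).2 ⟨u, hu, rfl⟩

theorem clean_of_no_pair (T δ : ℝ) (hT : 0 < T) (hδ : 0 < δ)
    (H : ¬ ∃ ρ ρ' : ℂ, riemannZeta ρ = 0 ∧ riemannZeta ρ' = 0 ∧ T ≤ ρ.im ∧ ρ.im ≤ ρ'.im ∧
      ρ'.im ≤ 2 * T ∧ (ρ ≠ ρ' ∨ deriv riemannZeta ρ = 0) ∧
      (∀ σ : ℂ, riemannZeta σ = 0 → ¬ (ρ.im < σ.im ∧ σ.im < ρ'.im)) ∧ ρ'.im - ρ.im < δ) :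
    ∃ U : Finset ℝ, Clean T δ U := by
  classical
  obtain ⟨U, h1, h2, h3⟩ := zeros_of_no_pair T δ hT hδ H
  refine ⟨U.filter fun u => T ≤ u ∧ u ≤ 2 * T, ?_, ?_, ?_, ?_⟩
  · intro w a b
    rw [h1 w a b]
    constructor
    · rintro ⟨u, hu, e⟩
      refine ⟨u, Finset.mem_filter.2 ⟨hu, ?_⟩, e⟩
      rw [e, ofReal_re] at a b
      exact ⟨a, b⟩
    · rintro ⟨u, hu, e⟩
      exact ⟨u, (Finset.mem_filter.1 hu).1, e⟩
  · exact fun u hu => h2 u (Finset.mem_filter.1 hu).1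
  · exact fun u hu u' hu' => h3 u (Finset.mem_filter.1 hu).1 u' (Finset.mem_filter.1 hu').1
  · exact fun u hu => (Finset.mem_filter.1 hu).2

theorem count_num {ε T L c1 c2 c3 c4 : ℝ} (hε : 0 < ε) (hL : 1 ≤ L) (hT : 6 / ε ≤ T)
    (h1 : c1 ≤ (ε / 8 * T + 1) * L / 3 + 1) (h2 : c2 ≤ (ε / 8 * T + 1) * L / 3 + 1)
    (h3 : c3 ≤ ε / 4 * T * L / 3) (h4 : c4 ≤ ε * T * L / 6 + 1) :
    c1 + c2 + c3 + c4 ≤ ε * T * L := by
  have h5 : 6 ≤ ε * T := by
    rw [div_le_iff₀ hε] at hT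
    linarith
  have h6 : 6 * L ≤ ε * T * L := by nlinarith
  nlinarith

theorem main (hG : GoodStmt) : MainStmt := by
  classical
  intro ε hε
  have hK1 : 1 ≤ 3 / ε + 1 := by
    have : 0 < 3 / ε := by positivity
    linarith
  obtain ⟨δ₁, hδ₁, hG⟩ := hG (ε / 4) (ε / 8) (3 / ε + 1) (by positivity) (by positivity) hK1
  set K := 3 / ε + 1 with hK
  have hK0 : 0 < K := by linarith
  set δ := min (δ₁ / 10) (min (1 / 100) (ε / (12 * K))) with hδ
  have hδ0 : 0 < δ := lt_min (by positivity) (lt_min (by norm_num) (by positivity))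
  have hδa : δ ≤ δ₁ / 10 := min_le_left _ _
  have hδb : δ ≤ 1 / 100 := (min_le_right _ _).trans (min_le_left _ _)
  have hδc : δ ≤ ε / (12 * K) := (min_le_right _ _).trans (min_le_right _ _)
  have hπ := Real.pi_gt_d2
  have hπ' := Real.pi_lt_d2
  set ab := (1 - 3 * δ) * Real.pi with hab
  have hab3 : 3 ≤ ab := by rw [hab]; nlinarith
  have habπ : ab ≤ Real.pi := by rw [hab]; nlinarith
  have hab1 : Real.pi - ab ≤ δ₁ := by rw [hab]; nlinarith
  have hev : ∀ᶠ T : ℝ in atTop, (6 / ε ≤ T ∧ 1 ≤ T) ∧ 2 ≤ Real.log T ∧ 4 / ε ^ 2 ≤ Real.log T :=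
    ((eventually_ge_atTop _).and (eventually_ge_atTop _)).and
      ((Real.tendsto_log_atTop.eventually_ge_atTop _).and
        (Real.tendsto_log_atTop.eventually_ge_atTop _))
  obtain ⟨T₀, hT₀⟩ := eventually_atTop.1 ((hG ab hab3 habπ hab1).and hev)
  refine ⟨δ, hδ0, T₀, fun T hT => ?_⟩
  obtain ⟨hGT, ⟨hT6, hT1⟩, hL2, hL4⟩ := hT₀ T hT
  set L := Real.log T with hL
  have hL0 : 0 < L := by linarith
  have hT0 : 0 < T := by linarith
  set d := (1 / 2 - δ) * (2 * Real.pi / L) with hd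
  set a := ab / L with ha
  have ha0 : 0 < a := by positivity
  have had : a < d := by
    have e : d = (1 - 2 * δ) * Real.pi / L := by rw [hd]; ring
    rw [e, ha, hab]
    refine div_lt_div_of_pos_right ?_ hL0
    nlinarith
  have hd0 : 0 < d := ha0.trans had
  have ha3 : 3 / L ≤ a := div_le_div_of_nonneg_right hab3 hL0.le
  have ha2 : a ≤ 2 := by
    rw [ha, div_le_iff₀ hL0]
    linarith
  by_cases H : ∃ ρ ρ' : ℂ, riemannZeta ρ = 0 ∧ riemannZeta ρ' = 0 ∧ T ≤ ρ.im ∧ ρ.im ≤ ρ'.im ∧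
      ρ'.im ≤ 2 * T ∧ (ρ ≠ ρ' ∨ deriv riemannZeta ρ = 0) ∧
      (∀ σ : ℂ, riemannZeta σ = 0 → ¬ (ρ.im < σ.im ∧ σ.im < ρ'.im)) ∧ ρ'.im - ρ.im < d
  · exact Or.inl H
  right
  obtain ⟨U, hU⟩ := clean_of_no_pair T d hT0 hd0 H
  obtain ⟨S, hS, hgood⟩ := hGT d U had hU
  set G := ε⁻¹ * (2 * Real.pi / L) with hGdef
  have hG0 : 0 < G := by positivity
  set B1 := U.filter fun u => u < (1 + ε / 8) * T + 1 with hB1
  set B2 := U.filter fun u => (2 - ε / 8) * T - 1 < u with hB2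
  set B3 := U.filter fun u => Set.Ioo (u - a / 2) (u + a / 2) ⊆ S with hB3
  set B4 := U.filter fun u => ∀ u' ∈ U, u < u' → G < u' - u with hB4
  have hsub : ∀ (p : ℝ → Prop) [DecidablePred p], ∀ u ∈ U.filter p, ∀ u' ∈ U.filter p, u ≠ u' →
      a ≤ |u - u'| := fun p _ u hu u' hu' hne =>
    had.le.trans (hU.sep u (Finset.mem_filter.1 hu).1 u' (Finset.mem_filter.1 hu').1 hne)
  have hl0 : 0 ≤ ε / 8 * T + 1 := by positivity
  have hdiv : (ε / 8 * T + 1) / a ≤ (ε / 8 * T + 1) * L / 3 := by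
    calc (ε / 8 * T + 1) / a ≤ (ε / 8 * T + 1) / (3 / L) :=
          div_le_div_of_nonneg_left hl0 (by positivity) ha3
      _ = (ε / 8 * T + 1) * L / 3 := by field_simp
  have c1 : (B1.card : ℝ) ≤ (ε / 8 * T + 1) * L / 3 + 1 := by
    have := Factor.card_le B1 a T (ε / 8 * T + 1) ha0 hl0 (fun u hu => by
      obtain ⟨h1, h2⟩ := Finset.mem_filter.1 hu
      exact ⟨(hU.mem u h1).1, by linarith⟩) (hsub _)
    linarith
  have c2 : (B2.card : ℝ) ≤ (ε / 8 * T + 1) * L / 3 + 1 := by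
    have := Factor.card_le B2 a ((2 - ε / 8) * T - 1) (ε / 8 * T + 1) ha0 hl0 (fun u hu => by
      obtain ⟨h1, h2⟩ := Finset.mem_filter.1 hu
      exact ⟨h2.le, by linarith [(hU.mem u h1).2]⟩) (hsub _)
    linarith
  have c3 : (B3.card : ℝ) ≤ ε / 4 * T * L / 3 := by
    have h1 := card_mul_le B3 a (ε / 4 * T) ha0 (by positivity) S hS (hsub _)
      fun u hu => (Finset.mem_filter.1 hu).2
    have h2 : (B3.card : ℝ) * (3 / L) ≤ ε / 4 * T :=
      (mul_le_mul_of_nonneg_left ha3 (Nat.cast_nonneg _)).trans h1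
    rw [← mul_div_assoc, div_le_iff₀ hL0] at h2
    linarith
  have c4 : (B4.card : ℝ) ≤ ε * T * L / 6 + 1 := by
    have h1 := Factor.card_le B4 G T T hG0 hT0.le (fun u hu => by
      obtain ⟨h1, _⟩ := Finset.mem_filter.1 hu
      exact ⟨(hU.mem u h1).1, by linarith [(hU.mem u h1).2]⟩) (fun u hu u' hu' hne => by
      obtain ⟨h1, h2⟩ := Finset.mem_filter.1 hu
      obtain ⟨h3, h4⟩ := Finset.mem_filter.1 hu'
      rcases lt_or_gt_of_ne hne with h | h
      · rw [abs_sub_comm]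
        exact (h2 u' h3 h).le.trans (le_abs_self _)
      · exact (h4 u h1 h).le.trans (le_abs_self _))
    have h2 : T / G = ε * T * L / (2 * Real.pi) := by
      rw [hGdef]
      field_simp
    have h3 : ε * T * L / (2 * Real.pi) ≤ ε * T * L / 6 :=
      div_le_div_of_nonneg_left (by positivity) (by norm_num) (by linarith)
    linarith
  refine ⟨B1 ∪ B2 ∪ B3 ∪ B4, ?_, ?_⟩
  · have h1 : (B1 ∪ B2 ∪ B3 ∪ B4).card ≤ B1.card + B2.card + B3.card + B4.card :=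
      (Finset.card_union_le _ _).trans (Nat.add_le_add_right ((Finset.card_union_le _ _).trans
        (Nat.add_le_add_right (Finset.card_union_le _ _) _)) _)
    have h2 : ((B1 ∪ B2 ∪ B3 ∪ B4).card : ℝ) ≤ B1.card + B2.card + B3.card + B4.card := by
      exact_mod_cast h1
    exact h2.trans (count_num hε (by linarith) hT6 c1 c2 c3 c4)
  intro ρ ρ' hρ hρ' h1 h2 h3 hB hcase
  have hu := zero_mem hU hρ h1 (h2.trans h3)
  have hu' := zero_mem hU hρ' (h1.trans h2) h3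
  set u := ρ.im with hudef
  set u' := ρ'.im with hudef'
  simp only [Finset.mem_union, not_or] at hB
  obtain ⟨⟨⟨n1, n2⟩, n3⟩, n4⟩ := hB
  have m1 : (1 + ε / 8) * T + 1 ≤ u := not_lt.1 fun h => n1 (Finset.mem_filter.2 ⟨hu, h⟩)
  have m2 : u ≤ (2 - ε / 8) * T - 1 := not_lt.1 fun h => n2 (Finset.mem_filter.2 ⟨hu, h⟩)
  have m3 : ¬ Set.Ioo (u - a / 2) (u + a / 2) ⊆ S := fun h => n3 (Finset.mem_filter.2 ⟨hu, h⟩)
  have m4 : ¬ ∀ v ∈ U, u < v → G < v - u := fun h => n4 (Finset.mem_filter.2 ⟨hu, h⟩)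
  have hgap : u' - u ≤ G := by
    rcases hcase with h | h
    · push Not at m4
      obtain ⟨v, hv, hv1, hv2⟩ := m4
      have h4 := h _ (mem_zero hU hv)
      have h5 : (1 / 2 + I * (v : ℂ)).im = v := by simp
      rw [h5] at h4
      have h6 : u' ≤ v := not_lt.1 fun h7 => h4 ⟨hv1, h7⟩
      linarith
    · exact h
  obtain ⟨t, ht, htS⟩ := Set.not_subset.1 m3
  have hGa : G ≤ 3 / ε * a := by
    have e1 : G = ε⁻¹ * (2 * Real.pi) / L := by rw [hGdef]; ring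
    have e2 : 3 / ε * a = ε⁻¹ * (3 * ab) / L := by rw [ha]; ring
    rw [e1, e2]
    refine div_le_div_of_nonneg_right (mul_le_mul_of_nonneg_left (by linarith) ?_) hL0.le
    positivity
  have hKa : K * a = 3 / ε * a + a := by rw [hK]; ring
  have h3a : 0 ≤ 3 / ε * a := by positivity
  obtain ⟨k, hk⟩ := hgood t (by linarith [ht.1]) (by linarith [ht.2]) htS u hu u' hu'
    (by rw [hKa, abs_le]; constructor <;> linarith [ht.1, ht.2])
    (by rw [hKa, abs_le]; constructor <;> linarith [ht.1, ht.2])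
  refine ⟨k, ?_⟩
  set θ := (u' - u) / a with hθ
  have hθ0 : 0 ≤ θ := div_nonneg (by linarith) ha0.le
  have hθK : θ ≤ K := by
    rw [hθ, div_le_iff₀ ha0]
    linarith
  have hu0 : 0 < u := by linarith
  have l1 : L ≤ Real.log u := Real.log_le_log hT0 h1
  have l2 : Real.log u ≤ L + 1 := by
    have h4 : Real.log u ≤ Real.log (2 * T) := Real.log_le_log hu0 (h2.trans h3)
    rw [Real.log_mul (by norm_num) hT0.ne'] at h4
    linarith [Real.log_two_lt_d9]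
  have e : (u' - u) * Real.log u / (2 * Real.pi) - k / 2 =
      (u' - u) * (Real.log u - L) / (2 * Real.pi) - 3 * δ * θ / 2 + (θ - k) / 2 := by
    have e1 : u' - u = θ * ((1 - 3 * δ) * Real.pi / L) := by
      rw [hθ, ← hab, ← ha]
      field_simp
    have e2 : (u' - u) * L / (2 * Real.pi) = θ * (1 - 3 * δ) / 2 := by
      rw [e1]
      field_simp
    have e3 : (u' - u) * Real.log u / (2 * Real.pi) =
        (u' - u) * (Real.log u - L) / (2 * Real.pi) + (u' - u) * L / (2 * Real.pi) := by ring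
    rw [e3, e2]
    ring
  have b1 : 0 ≤ (u' - u) * (Real.log u - L) / (2 * Real.pi) :=
    div_nonneg (mul_nonneg (by linarith) (by linarith)) (by linarith)
  have b2 : (u' - u) * (Real.log u - L) / (2 * Real.pi) ≤ ε / 4 := by
    have h4 : (u' - u) * (Real.log u - L) ≤ G * 1 :=
      mul_le_mul hgap (by linarith) (by linarith) hG0.le
    have h5 : G * 1 / (2 * Real.pi) = 1 / (ε * L) := by
      rw [hGdef]
      field_simp
    have h6 : 1 / (ε * L) ≤ ε / 4 := by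
      rw [div_le_iff₀ (by positivity)] at hL4
      rw [div_le_div_iff₀ (by positivity) (by norm_num)]
      nlinarith
    exact (div_le_div_of_nonneg_right h4 (by linarith)).trans (h5 ▸ h6)
  have b3 : 0 ≤ 3 * δ * θ / 2 := by positivity
  have b4 : 3 * δ * θ / 2 ≤ ε / 8 := by
    rw [le_div_iff₀ (by positivity)] at hδc
    have : δ * θ ≤ δ * K := mul_le_mul_of_nonneg_left hθK hδ0.le
    linarith
  rw [abs_le] at hk
  rw [e, abs_lt]
  constructor <;> linarith [hk.1, hk.2]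

end Pool.Agent.MP_ca0a54_nt.H24
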