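import Pool.Agent.MP_ca0a54_nt.H24.Glue0
import Pool.Agent.MP_ca0a54_nt.H24.Main
import Pool.Agent.MP_ca0a54_nt.H69.GKL
import Pool.Agent.MP_ca0a54_nt.H47.PRIMES
import Pool.Agent.MP_ca0a54_nt.H34.PA
import Pool.Agent.MP_ca0a54_nt.H60.PB

namespace Pool.Agent.MP_ca0a54_nt.H24

open Pool.Agent.MP_ca0a54_nt

theorem gkl' : GklStmt := H69.gkl H91.shift H91.pole H91.ker H91.kmInt
theorem pa' : PAStmt := H34.pa H40.mvt1 ode' prob' (H47.primes H88.ar1)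
theorem pb' : PBStmt :=
  H60.pb H40.mvt1 H51.lf H23.pf line' gkl' H91.kmInt H88.ar1 ar2' m1' pq'
theorem final : MainStmt := main (good' gkl' pb' pa')

end Pool.Agent.MP_ca0a54_nt.H24
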