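import Pool.Agent.MP_ca0a54_nt.H24.Good
import Pool.Agent.MP_ca0a54_nt.H91.SC
import Pool.Agent.MP_ca0a54_nt.H3.AR2
import Pool.Agent.MP_ca0a54_nt.H51.LF
import Pool.Agent.MP_ca0a54_nt.H79.S1
import Pool.Agent.MP_ca0a54_nt.H23.PF
import Pool.Agent.MP_ca0a54_nt.H15.SZ
import Pool.Agent.MP_ca0a54_nt.H33.PC
import Pool.Agent.MP_ca0a54_nt.H62.KAR
import Pool.Agent.MP_ca0a54_nt.H97.PROB
import Pool.Agent.MP_ca0a54_nt.H1.RL
import Pool.Agent.MP_ca0a54_nt.H22.SF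
import Pool.Agent.MP_ca0a54_nt.H40.MVT
import Pool.Agent.MP_ca0a54_nt.H10.QID
import Pool.Agent.MP_ca0a54_nt.H18.DET
import Pool.Agent.MP_ca0a54_nt.H83.PQ
import Pool.Agent.MP_ca0a54_nt.H88.AR1
import Pool.Agent.MP_ca0a54_nt.H45.ODE

namespace Pool.Agent.MP_ca0a54_nt.H24

open Pool.Agent.MP_ca0a54_nt

theorem line' : LineStmt := H23.line H23.pf
theorem qid' : QidStmt := H10.qid H91.shift H91.pole
theorem ar2' : Ar2Stmt := H3.ar2 H88.ar1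
theorem rl' : RLStmt := H1.rl H88.ar1
theorem m1' : M1Stmt := H62.m1 H88.ar1 H62.kar
theorem s1' : S1Stmt := H79.s1 H88.ar1 ar2' rl' H62.kar m1'
theorem pq' : PQStmt := H83.pq H40.mvt H51.lf H23.pf line' qid' H88.ar1 ar2' s1'
theorem sz' : SzStmt := H15.sz H23.sep
theorem ode' : OdeStmt := H45.ode H40.mvt1 H88.ar1 ar2'
theorem prob' : ProbStmt := H97.prob H40.mvt
theorem pc' (hG : GklStmt) : PCStmt :=
  H33.pcs H40.mvt1 H51.lf H88.ar1 sz' (H22.sf H23.sep line' hG H88.ar1)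
theorem good' (hG : GklStmt) (hB : PBStmt) (hA : PAStmt) : GoodStmt :=
  good H40.mvt1 H88.ar1 ar2' hB (pc' hG) H18.det hA

end Pool.Agent.MP_ca0a54_nt.H24
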