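import Pool.Agent.MP_ca0a54_nt.H24.GoodB
import Pool.Agent.MP_ca0a54_nt.L0.ZetaA

/-! In most windows the zeros lie near one lattice. -/

open Complex MeasureTheory Filter Topology

namespace Pool.Agent.MP_ca0a54_nt.H24

open Pool.Agent.MP_ca0a54_nt.L0

theorem ev_div_log (c d : ℝ) (hd : 0 < d) : ∀ᶠ T : ℝ in atTop, c / Real.log T ≤ d := by
  have : Tendsto (fun T : ℝ => c / Real.log T) atTop (𝓝 0) :=
    Real.tendsto_log_atTop.const_div_atTop c
  exact this.eventually (ge_mem_nhds hd)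

theorem good (hm1 : Mvt1Stmt) (ha1 : Ar1Stmt) (ha2 : Ar2Stmt) (hpb : PBStmt) (hpc : PCStmt)
    (hdet : DetStmt) (hpa : PAStmt) : GoodStmt := by
  intro ε' η K hε' hη hK
  set ε := min ε' 1 with hεd
  have hε : 0 < ε := lt_min hε' one_pos
  have hε1 : ε ≤ 1 := min_le_right _ _
  have hεε : ε ≤ ε' := min_le_left _ _
  obtain ⟨CB, hCB, hB⟩ := hpb (η / 4) (by positivity)
  obtain ⟨CC, hCC, hCc⟩ := hpc η (ε / 3) hη (by positivity)
  obtain ⟨CA, hCA, hA2, -⟩ := ha2
  obtain ⟨m, Y, A, hA0, hA1, hmA, hY, hP⟩ := hpa (ε / 3) (CC * (K + 2) ^ 2 + 5)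
    (max CC (200 * (K + 1) * (CA * CB) / ε)) (by positivity)
  have hAC : CC ≤ A := (le_max_left _ _).trans hA0
  have hAK : 200 * (K + 1) * (CA * CB) ≤ A * ε := by
    have := (le_max_right _ _).trans hA0
    rwa [div_le_iff₀ hε] at this
  have hAB : 1 ≤ CA * CB := one_le_mul_of_one_le_of_one_le hCA hCB
  have hA : 0 < A := by linarith
  refine ⟨Real.exp (-A), Real.exp_pos _, fun ab hab3 habpi habd => ?_⟩
  set ε₁ := Real.exp (-A) with hε₁
  have he0 : 0 < ε₁ := Real.exp_pos _
  have heY : ∀ j, ε₁ * Y j ≤ 1 := fun j => by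
    calc ε₁ * Y j ≤ ε₁ * Real.exp A := by gcongr; exact (hY j).2
      _ = 1 := by rw [hε₁, ← Real.exp_add]; simp
  have he2 : ε₁ ≤ 1 / 2 := by
    have h1 : ε₁ * Real.exp A = 1 := by rw [hε₁, ← Real.exp_add]; simp
    have h2 := Real.add_one_le_exp A
    nlinarith
  have hpar : ∀ j, Par (Y j) ε₁ ab := fun j =>
    ⟨(hY j).1, he0, heY j, hab3, habpi, le_trans (by gcongr; linarith [(hY j).1]) (heY j)⟩
  have hpi := Real.pi_le_four
  have E1 := eventually_all.2 fun j => hB (Y j) ε₁ ab (hpar j)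
  have E2 := eventually_all.2 fun j =>
    RR_line hm1 ha1 CA hCA hA2 (Y j) ε₁ (by linarith [(hY j).1]) he0
  filter_upwards [E1, E2, hCc (K + 2) A ab (by linarith) hAC (by linarith) (by linarith),
    hP ε₁ ab he0 he2 (by linarith) (by linarith), ev_div_log (ab * A) (1 / 40) (by norm_num),
    ev_div_log (ab * (K + 2)) 1 one_pos, eventually_ge_atTop (4 / η), eventually_gt_atTop 1]
    with T b1 b2 c1 p1 g1 g2 g3 hT1 δ U hδ hU
  have hT0 : 0 < T := by linarith
  have hL : 0 < Real.log T := Real.log_pos hT1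
  set L := Real.log T with hLd
  set a := ab / L with had
  have ha : 0 < a := by positivity
  have haL : L * a = ab := by rw [had]; field_simp
  have g1' : a * A ≤ 1 / 40 := by rwa [had, div_mul_eq_mul_div]
  have g2' : a * (K + 2) ≤ 1 := by rwa [had, div_mul_eq_mul_div]
  have g3' : 4 ≤ η * T := by rwa [div_le_iff₀' hη] at g3
  obtain ⟨SC, vC, hSC⟩ := c1 δ U hδ hU
  obtain ⟨SA, vA, hSA⟩ := p1
  set G : Fin m → ℂ → ℂ := fun j w => Bq a w * RR T (Y j) ε₁ w - RR T (Y j) ε₁ (w + a) with hG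
  have mR : ∀ j, Measurable (RR T (Y j) ε₁) := fun j => (RR_diff _ _ _).continuous.measurable
  have mG : ∀ j, Measurable (G j) := fun j =>
    ((zf_meas.div (zf_meas.comp (by fun_prop))).mul (mR j)).sub ((mR j).comp (by fun_prop))
  have geo1 : (1 + 3 * (η / 4)) * T ≤ (1 + η) * T - a * (K + 1) := by nlinarith
  have geo2 : (2 - η) * T + a * (K + 1) ≤ (2 - 3 * (η / 4)) * T := by nlinarith
  have hl : 0 < A ^ 4 := by positivity
  have hmax : ∀ y : ℝ, L * max (a * y) 0 = ab * max y 0 := fun y => by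
    rw [← haL, mul_assoc, mul_max_of_nonneg _ _ ha.le, mul_zero]
  have lineG : ∀ j (y : ℝ), y ≠ 0 → |y| ≤ A →
      ∫⁻ x in Set.Icc ((1 + 3 * (η / 4)) * T) ((2 - 3 * (η / 4)) * T),
        ‖G j (x + (a * y : ℝ) * I)‖ₑ ≤ ENNReal.ofReal (CB * T * Real.exp (ab * max y 0) *
          (1 + A + Real.log (1 + 1 / |y|))) := fun j y hy0 hy => by
    have h1 := b1 j δ U hδ hU (a * y) (mul_ne_zero ha.ne' hy0) (by
      rw [abs_mul, abs_of_pos ha]
      nlinarith)
    refine h1.trans (ENNReal.ofReal_le_ofReal ?_)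
    have hy1 : 0 < |y| := abs_pos.2 hy0
    have e1 : Real.log (1 / ε₁) = A := by rw [hε₁, one_div, ← Real.exp_neg, neg_neg, Real.log_exp]
    have e2 : L * |a * y| = ab * |y| := by rw [abs_mul, abs_of_pos ha, ← mul_assoc, haL]
    rw [hmax, e1, e2]
    gcongr
    nlinarith
  have hS1 := fun j => area (G j) (mG j) a ab A K (CB * T) _ _ _ _ _ ha hA1 hK (by positivity) hl
    geo1 geo2 (lineG j)
  have hS2 := fun j => two_lines (G j) (mG j) a ab A K (CB * T * (3 * A)) _ _ _ _ _ ha hA1 hK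
    (by positivity) hl geo1 geo2 (fun y hy => by
      refine (lineG j y (by rintro rfl; simp at hy; linarith) hy.le).trans
        (ENNReal.ofReal_le_ofReal ?_)
      have h1 := Real.log_le_sub_one_of_pos (show 0 < 1 + 1 / A by positivity)
      have h2 : 1 / A ≤ 1 := by rw [div_le_one hA]; exact hA1
      rw [hy]
      calc _ ≤ CB * T * Real.exp (ab * max y 0) * (3 * A) := by gcongr; linarith
        _ = _ := by ring)
  have hS3 := fun j => two_lines (RR T (Y j) ε₁) (mR j) a ab A K (4 * CA * T * Real.exp A) _ _ _ _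
    (Real.exp A * A ^ 4) ha hA1 hK (by positivity) (by positivity) geo1 geo2 (fun y _ => by
      refine (b2 j _ _ (a * y) (by nlinarith)).trans (ENNReal.ofReal_le_ofReal ?_)
      rw [hmax]
      calc _ ≤ 4 * CA * T * Real.exp (ab * max y 0) * Real.exp A := by gcongr; exact (hY j).2
        _ = _ := by ring)
  choose S1 v1 q1 using hS1
  choose S2 v2 q2 using hS2
  choose S3 v3 q3 using hS3
  refine ⟨(SA ∪ SC) ∪ ⋃ j, ((S1 j ∪ S2 j) ∪ S3 j), ?_, fun t t1 t2 hS u hu u' hu' d1 d2 => ?_⟩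
  · have hj : ∀ j, volume ((S1 j ∪ S2 j) ∪ S3 j) ≤ ENNReal.ofReal (ε / 3 * T / A) := fun j => by
      refine (measure_union_le _ _).trans ((add_le_add ((measure_union_le _ _).trans
        (add_le_add (v1 j) (v2 j))) (v3 j)).trans ?_)
      rw [← ENNReal.ofReal_add (by positivity) (by positivity),
        ← ENNReal.ofReal_add (by positivity) (by positivity)]
      refine ENNReal.ofReal_le_ofReal ?_
      have e : 24 * (K + 1) * (CB * T) * A ^ 2 / A ^ 4 + 4 * (K + 1) * (CB * T * (3 * A)) / A ^ 4 +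
          4 * (K + 1) * (4 * CA * T * Real.exp A) / (Real.exp A * A ^ 4) =
          (K + 1) * (24 * CB * A ^ 2 + 12 * CB * A + 16 * CA) / A ^ 3 * T / A := by
        field_simp
        ring
      rw [e]
      refine div_le_div_of_nonneg_right (mul_le_mul_of_nonneg_right ?_ hT0.le) hA.le
      rw [div_le_iff₀ (by positivity)]
      have f1 : CB ≤ CA * CB := le_mul_of_one_le_left (by linarith) hCA
      have f2 : CA ≤ CA * CB := le_mul_of_one_le_right (by linarith) hCB
      have f3 : A ≤ A ^ 2 := by nlinarith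
      have f4 : 24 * CB * A ^ 2 + 12 * CB * A + 16 * CA ≤ 52 * (CA * CB) * A ^ 2 := by
        have k1 : CB * A ^ 2 ≤ CA * CB * A ^ 2 := by gcongr
        have k2 : CB * A ≤ CA * CB * A ^ 2 := by gcongr
        have k3 : CA * 1 ≤ CA * CB * A ^ 2 := by gcongr; linarith
        linarith
      calc _ ≤ (K + 1) * (52 * (CA * CB) * A ^ 2) := by gcongr
        _ = 200 * (K + 1) * (CA * CB) * (52 / 200 * A ^ 2) := by ring
        _ ≤ A * ε * (1 / 3 * A ^ 2) :=
          mul_le_mul hAK (by nlinarith [sq_nonneg A]) (by positivity) (by positivity)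
        _ = _ := by ring
    have hU' : volume (⋃ j, ((S1 j ∪ S2 j) ∪ S3 j)) ≤ ENNReal.ofReal (ε / 3 * T) := by
      refine (measure_iUnion_fintype_le _ _).trans ((Finset.sum_le_sum fun j _ => hj j).trans ?_)
      rw [Finset.sum_const, Finset.card_univ, Fintype.card_fin, nsmul_eq_mul,
        ← ENNReal.ofReal_natCast, ← ENNReal.ofReal_mul (Nat.cast_nonneg _)]
      refine ENNReal.ofReal_le_ofReal ?_
      calc (m : ℝ) * (ε / 3 * T / A) ≤ A * (ε / 3 * T / A) := by gcongr
        _ = _ := by field_simp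
    refine (measure_union_le _ _).trans ((add_le_add ((measure_union_le _ _).trans
      (add_le_add vA vC)) hU').trans ?_)
    rw [← ENNReal.ofReal_add (by positivity) (by positivity),
      ← ENNReal.ofReal_add (by positivity) (by positivity)]
    refine ENNReal.ofReal_le_ofReal ?_
    nlinarith
  · simp only [Set.mem_union, Set.mem_iUnion, not_or, not_exists] at hS
    obtain ⟨⟨nA, nC⟩, nS⟩ := hS
    have tT : T + 4 ≤ t := by nlinarith
    have tT' : t + 4 ≤ 2 * T := by nlinarith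
    obtain ⟨j, ρ₀, hρ, h5⟩ := hSA t (by linarith) (by linarith) nA
    obtain ⟨fnz, fsz, f4⟩ := hSC t t1 t2 nC
    have hre : ∀ z : ℂ, ((t : ℂ) + a * z).re = t + a * z.re := fun z => by simp
    have him : ∀ z : ℂ, ((t : ℂ) + a * z).im = a * z.im := fun z => by simp
    have hin : ∀ z : ℂ, |z.re| ≤ K + 2 → T ≤ t + a * z.re ∧ t + a * z.re ≤ 2 * T := fun z hz => by
      obtain ⟨k1, k2⟩ := abs_le.1 hz
      constructor <;> nlinarith
    have hEd : ∀ z : ℂ, Ed (fun z => zf (t + a * z)) (fun z => RR T (Y j) ε₁ (t + a * z)) z =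
        G j (t + a * z) := fun z => by
      simp only [Ed, hG, Bq, mul_add, mul_one, add_assoc]
    have hpt : ∀ x : ℝ, (t : ℂ) + a * (x - A * I) = t + a * x - (A * a : ℝ) * I := fun x => by
      push_cast
      ring
    have hz : ∀ v ∈ U, zf (t + a * ((v - t) / a : ℝ)) = 0 := fun v hv => by
      have : (t : ℂ) + a * ((v - t) / a : ℝ) = v := by
        rw [← ofReal_mul, ← ofReal_add]
        congr 1
        field_simp
        ring
      rw [this]
      exact (hU.zeros v (hU.mem v hv).1 (hU.mem v hv).2).2 ⟨v, hv, rfl⟩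
    have hd : ∀ v : ℝ, |v - t| ≤ K * a → |(v - t) / a| ≤ K := fun v hv => by
      rwa [abs_div, abs_of_pos ha, div_le_iff₀ ha]
    have hfA := norm_pos_iff.2 fnz
    obtain ⟨k, hk⟩ := core hdet (fun z => zf (t + a * z)) (fun z => RR T (Y j) ε₁ (t + a * z)) K A
      ab (A ^ (CC * (K + 2) ^ 2) * ‖zf (t - (A * a : ℝ) * I)‖) (A ^ 4) ε (zf (t - (A * a : ℝ) * I))
      ρ₀ hK hA1 (by linarith) habpi (by positivity) hl.le hε hε1
      (zf_differentiableOn.comp (by fun_prop) fun z hz => by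
        show 0 < ((t : ℂ) + a * z).re
        rw [hre]
        linarith [(hin z hz.1).1])
      ((RR_diff _ _ _).comp (by fun_prop))
      (fun z h1 _ h3 h0 => by
        obtain ⟨v, -, hv⟩ := (hU.zeros _ (by rw [hre]; exact (hin z h1).1)
          (by rw [hre]; exact (hin z h1).2)).1 h0
        have := congrArg Complex.im hv
        rw [him, ofReal_im] at this
        exact h3 ((mul_eq_zero.1 this).resolve_left ha.ne'))
      (fun z h1 h2 => by
        have := fsz (t + a * z) (by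
          rw [hre, add_sub_cancel_left, abs_mul, abs_of_pos ha, mul_comm]
          gcongr) (by
          rw [him, abs_mul, abs_of_pos ha, mul_comm]
          gcongr)
        rwa [him, hmax] at this)
      (by simpa only [hEd] using q1 j t ⟨t1, t2⟩ (nS j).1.1)
      (by simpa only [hEd] using q2 j t ⟨t1, t2⟩ (nS j).1.2)
      (q3 j t ⟨t1, t2⟩ (nS j).2)
      (fun x x0 x1 => by simpa only [hpt] using f4 x x0 x1)
      (by simpa only [hpt] using h5)
      (by
        have e1 : A ^ (CC * (K + 2) ^ 2 + 5) = A ^ (CC * (K + 2) ^ 2) * A ^ 4 * A := by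
          rw [Real.rpow_add hA, show (5 : ℝ) = (5 : ℕ) by norm_num, Real.rpow_natCast]
          ring
        have e2 : 60 < A * ε := by nlinarith
        have e3 : 0 < A ^ (CC * (K + 2) ^ 2) * A ^ 4 * ‖zf (t - (A * a : ℝ) * I)‖ := by positivity
        rw [e1] at hρ
        calc _ = A ^ (CC * (K + 2) ^ 2) * A ^ 4 * ‖zf (t - (A * a : ℝ) * I)‖ * 60 := by ring
          _ < A ^ (CC * (K + 2) ^ 2) * A ^ 4 * ‖zf (t - (A * a : ℝ) * I)‖ * (A * ε) := by gcongr
          _ = ε * (‖zf (t - (A * a : ℝ) * I)‖ * (A ^ (CC * (K + 2) ^ 2) * A ^ 4 * A)) := by ring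
          _ ≤ _ := by gcongr)
      _ _ (hd u d1) (hd u' d2) (hz u hu) (hz u' hu')
    refine ⟨k, le_trans (le_of_eq ?_) (hk.trans hεε)⟩
    congr 2
    ring

end Pool.Agent.MP_ca0a54_nt.H24
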