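import Pool.Agent.MP_ca0a54_nt.H24.Spec

/-! Measure-theoretic tools and the deterministic step of the final argument. -/

open Complex MeasureTheory Filter Topology

namespace Pool.Agent.MP_ca0a54_nt.H24

open Pool.Agent.MP_ca0a54_nt.L0

theorem markov (Z : ℝ → ENNReal) (hZ : Measurable Z) (J : Set ℝ) (hJ : MeasurableSet J)
    (B l : ℝ) (hl : 0 < l) (h : ∫⁻ t in J, Z t ≤ ENNReal.ofReal B) :
    volume {t | t ∈ J ∧ ENNReal.ofReal l < Z t} ≤ ENNReal.ofReal (B / l) := by
  have h0 : ENNReal.ofReal l ≠ 0 := by simpa using hl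
  have h1 := meas_ge_le_lintegral_div (μ := volume.restrict J) hZ.aemeasurable h0
    ENNReal.ofReal_ne_top
  rw [Measure.restrict_apply' hJ] at h1
  calc volume {t | t ∈ J ∧ ENNReal.ofReal l < Z t}
      ≤ volume ({t | ENNReal.ofReal l ≤ Z t} ∩ J) := measure_mono fun t ht => ⟨ht.2.le, ht.1⟩
    _ ≤ (∫⁻ t in J, Z t) / ENNReal.ofReal l := h1
    _ ≤ ENNReal.ofReal B / ENNReal.ofReal l := by gcongr
    _ = ENNReal.ofReal (B / l) := (ENNReal.ofReal_div_of_pos hl).symm

theorem lint_shift (e : ℝ → ENNReal) (t₁ t₂ s₁ s₂ c : ℝ) (h₁ : s₁ ≤ t₁ + c) (h₂ : t₂ + c ≤ s₂) :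
    ∫⁻ t in Set.Icc t₁ t₂, e (t + c) ≤ ∫⁻ x in Set.Icc s₁ s₂, e x := by
  rw [← lintegral_indicator measurableSet_Icc, ← lintegral_indicator measurableSet_Icc,
    ← lintegral_add_right_eq_self (fun x => (Set.Icc s₁ s₂).indicator e x) c]
  refine lintegral_mono fun t => ?_
  by_cases ht : t ∈ Set.Icc t₁ t₂
  · have : t + c ∈ Set.Icc s₁ s₂ := ⟨by linarith [ht.1], by linarith [ht.2]⟩
    simp only [Set.indicator_of_mem ht, Set.indicator_of_mem this, le_refl]
  · simp only [Set.indicator_of_notMem ht, zero_le]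

/-- Averaging a window integral over the centre of the window. -/
theorem lint_window (e : ℝ → ENNReal) (he : Measurable e) (t₁ t₂ s₁ s₂ a X : ℝ) (ha : 0 ≤ a)
    (h₁ : s₁ ≤ t₁ - a * X) (h₂ : t₂ + a * X ≤ s₂) :
    Measurable (fun t => ∫⁻ x in Set.Icc (-X) X, e (t + a * x)) ∧
    ∫⁻ t in Set.Icc t₁ t₂, ∫⁻ x in Set.Icc (-X) X, e (t + a * x) ≤
      ENNReal.ofReal (2 * X) * ∫⁻ x in Set.Icc s₁ s₂, e x := by
  have hm : Measurable (Function.uncurry fun t x : ℝ => e (t + a * x)) :=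
    he.comp (measurable_fst.add (measurable_snd.const_mul a))
  refine ⟨hm.lintegral_prod_right, ?_⟩
  rw [lintegral_lintegral_swap hm.aemeasurable]
  calc ∫⁻ x in Set.Icc (-X) X, ∫⁻ t in Set.Icc t₁ t₂, e (t + a * x)
      ≤ ∫⁻ _ in Set.Icc (-X) X, ∫⁻ x in Set.Icc s₁ s₂, e x := by
        refine setLIntegral_mono' measurableSet_Icc fun x hx => lint_shift e _ _ _ _ _ ?_ ?_
        · nlinarith [hx.1]
        · nlinarith [hx.2]
    _ = _ := by
        rw [setLIntegral_const, Real.volume_Icc, mul_comm]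
        congr 2
        ring

theorem log_one_add_inv_le {z : ℝ} (hz : 0 < z) : Real.log (1 + 1 / z) ≤ 2 * z ^ (-(1 / 2) : ℝ) := by
  have h1 : z ^ (-(1 / 2) : ℝ) * z ^ (-(1 / 2) : ℝ) = 1 / z := by
    rw [← Real.rpow_add hz, one_div z, ← Real.rpow_neg_one]
    norm_num
  set s := z ^ (-(1 / 2) : ℝ) with hs
  have hs0 : 0 < s := Real.rpow_pos_of_pos hz _
  have h2 : 1 + 1 / z ≤ (1 + s) ^ 2 := by rw [← h1]; nlinarith
  calc Real.log (1 + 1 / z) ≤ Real.log ((1 + s) ^ 2) := Real.log_le_log (by positivity) h2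
    _ = 2 * Real.log (1 + s) := by rw [Real.log_pow]; norm_num
    _ ≤ 2 * s := by
      have := Real.log_le_sub_one_of_pos (show 0 < 1 + s by positivity)
      linarith

theorem lint_log (A : ℝ) (hA : 1 ≤ A) :
    ∫⁻ y in Set.Icc (-A) A, ENNReal.ofReal (Real.log (1 + 1 / |y|)) ≤ ENNReal.ofReal (8 * A) := by
  have key : ∫⁻ y in Set.Ioc 0 A, ENNReal.ofReal (2 * y ^ (-(1 / 2) : ℝ)) ≤
      ENNReal.ofReal (4 * A) := by
    have hi : IntervalIntegrable (fun y : ℝ => 2 * y ^ (-(1 / 2) : ℝ)) volume 0 A :=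
      (intervalIntegral.intervalIntegrable_rpow' (by norm_num)).const_mul 2
    rw [← ofReal_integral_eq_lintegral_ofReal hi.1
      ((ae_restrict_iff' measurableSet_Ioc).2 (Eventually.of_forall fun y hy => by
        have := hy.1
        simp only [Pi.zero_apply]
        positivity)), ← intervalIntegral.integral_of_le (by linarith),
      intervalIntegral.integral_const_mul, integral_rpow (Or.inl (by norm_num))]
    refine ENNReal.ofReal_le_ofReal ?_
    have h1 : A ^ (-(1 / 2) + 1 : ℝ) ≤ A ^ (1 : ℝ) :=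
      Real.rpow_le_rpow_of_exponent_le hA (by norm_num)
    rw [Real.rpow_one] at h1
    rw [Real.zero_rpow (by norm_num)]
    have : 2 * ((A ^ (-(1 / 2) + 1 : ℝ) - 0) / (-(1 / 2) + 1)) = 4 * A ^ (-(1 / 2) + 1 : ℝ) := by
      ring
    rw [this]
    linarith
  have pos : ∫⁻ y in Set.Ioc 0 A, ENNReal.ofReal (Real.log (1 + 1 / |y|)) ≤
      ENNReal.ofReal (4 * A) := by
    refine le_trans (setLIntegral_mono' measurableSet_Ioc fun y hy => ?_) key
    rw [abs_of_pos hy.1]
    exact ENNReal.ofReal_le_ofReal (log_one_add_inv_le hy.1)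
  have neg : ∫⁻ y in Set.Ico (-A) 0, ENNReal.ofReal (Real.log (1 + 1 / |y|)) ≤
      ENNReal.ofReal (4 * A) := by
    rw [← lintegral_indicator measurableSet_Ico, ← lintegral_neg_eq_self]
    rw [← lintegral_indicator measurableSet_Ioc] at pos
    refine le_trans (le_of_eq (lintegral_congr fun y => ?_)) pos
    by_cases hy : y ∈ Set.Ioc 0 A
    · have : -y ∈ Set.Ico (-A) 0 := ⟨by linarith [hy.2], by linarith [hy.1]⟩
      simp only [Set.indicator_of_mem hy, Set.indicator_of_mem this, abs_neg]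
    · have : -y ∉ Set.Ico (-A) 0 := fun h => hy ⟨by linarith [h.2], by linarith [h.1]⟩
      simp only [Set.indicator_of_notMem hy, Set.indicator_of_notMem this]
  have hsub : Set.Icc (-A) A ⊆ (Set.Ico (-A) 0 ∪ Set.Ioc 0 A) ∪ {0} := by
    intro y hy
    rcases lt_trichotomy y 0 with h | h | h
    · exact Or.inl (Or.inl ⟨hy.1, h⟩)
    · exact Or.inr h
    · exact Or.inl (Or.inr ⟨h, hy.2⟩)
  calc _ ≤ ∫⁻ y in (Set.Ico (-A) 0 ∪ Set.Ioc 0 A) ∪ {0},
        ENNReal.ofReal (Real.log (1 + 1 / |y|)) := lintegral_mono_set hsub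
    _ ≤ (ENNReal.ofReal (4 * A) + ENNReal.ofReal (4 * A)) + 0 := by
        refine (lintegral_union_le _ _ _).trans (add_le_add ?_ (by simp))
        exact (lintegral_union_le _ _ _).trans (add_le_add neg pos)
    _ = _ := by
        rw [add_zero, ← ENNReal.ofReal_add (by linarith) (by linarith)]
        congr 1
        ring

/-- The defect of periodicity relative to `F`. -/
noncomputable def Ed (F R : ℂ → ℂ) (z : ℂ) : ℂ := F z / F (z + 1) * R z - R (z + 1)

theorem core (hdet : DetStmt) (F R : ℂ → ℂ) (K A b Φ l ε : ℝ) (fA ρ₀ : ℂ) (hK : 1 ≤ K)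
    (hA : 1 ≤ A) (hb0 : 0 ≤ b) (hb : b ≤ Real.pi) (hΦ : 0 ≤ Φ) (hl : 0 ≤ l) (hε0 : 0 < ε)
    (hε : ε ≤ 1)
    (hF : DifferentiableOn ℂ F {z | |z.re| ≤ K + 2 ∧ |z.im| ≤ A})
    (hR : Differentiable ℂ R)
    (hnz : ∀ z : ℂ, |z.re| ≤ K + 2 → |z.im| ≤ A → z.im ≠ 0 → F z ≠ 0)
    (hsz : ∀ z : ℂ, |z.re| ≤ K + 2 → |z.im| ≤ A → ‖F z‖ ≤ Φ * Real.exp (b * max z.im 0))
    (h1 : ∫⁻ x in Set.Icc (-(K + 1)) (K + 1), ∫⁻ y in Set.Icc (-A) A,
      ‖Ed F R (x + y * I)‖ₑ * ENNReal.ofReal (Real.exp (-b * max y 0)) ≤ ENNReal.ofReal l)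
    (h2 : ∫⁻ x in Set.Icc (-(K + 1)) (K + 1), (‖Ed F R (x - A * I)‖ₑ +
      ‖Ed F R (x + A * I)‖ₑ * ENNReal.ofReal (Real.exp (-b * A))) ≤ ENNReal.ofReal l)
    (h3 : ∫⁻ x in Set.Icc (-(K + 1)) (K + 1), (‖R (x - A * I)‖ₑ +
      ‖R (x + A * I)‖ₑ * ENNReal.ofReal (Real.exp (-b * A))) ≤ ENNReal.ofReal (Real.exp A * l))
    (h4 : ∀ x : ℝ, 0 ≤ x → x ≤ 1 → ‖F (x - A * I) - fA‖ ≤ ‖fA‖ / 10)
    (h5 : ∫⁻ x in Set.Icc (0 : ℝ) 1, ‖R (x - A * I) - ρ₀‖ₑ ≤ ENNReal.ofReal (‖ρ₀‖ / 10))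
    (h6 : 60 * Φ * l < ε * (‖fA‖ * ‖ρ₀‖)) (u u' : ℝ) (hu : |u| ≤ K) (hu' : |u'| ≤ K)
    (z : F u = 0) (z' : F u' = 0) : ∃ k : ℤ, |u' - u - k| ≤ ε := by
  have hpi := Real.pi_gt_three
  have hD : ∀ x y : ℝ, x ∈ Set.Icc (-(K + 1)) (K + 1) → |y| ≤ A → y ≠ 0 →
      ‖F (x + y * I + 1) * R (x + y * I + 1) - F (x + y * I) * R (x + y * I)‖ ≤
        Φ * Real.exp (b * max y 0) * ‖Ed F R (x + y * I)‖ := by
    intro x y hx hy hy0
    have e1 : |((x : ℂ) + y * I + 1).re| ≤ K + 2 := by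
      simp only [add_re, ofReal_re, mul_re, I_re, mul_zero, ofReal_im, I_im, mul_one, sub_self,
        add_zero, one_re]
      rw [abs_le]
      constructor <;> linarith [hx.1, hx.2]
    have e2 : ((x : ℂ) + y * I + 1).im = y := by simp
    have n1 := hnz _ e1 (by rw [e2]; exact hy) (by rw [e2]; exact hy0)
    have s1 := hsz _ e1 (by rw [e2]; exact hy)
    rw [e2] at s1
    have e3 : F (x + y * I + 1) * R (x + y * I + 1) - F (x + y * I) * R (x + y * I) =
        -(F (x + y * I + 1) * Ed F R (x + y * I)) := by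
      unfold Ed
      field_simp
      ring
    rw [e3, norm_neg, norm_mul]
    gcongr
  have hI : Set.Icc (-K - 1) (K + 1) = Set.Icc (-(K + 1)) (K + 1) := by congr 1; ring
  have hA0 : A ≠ 0 := by linarith
  have hAa : |A| ≤ A := (abs_of_nonneg (by linarith)).le
  have hAn : |-A| ≤ A := by rw [abs_neg]; exact hAa
  have hneg : ∀ x : ℝ, (x : ℂ) - A * I = x + (-A : ℝ) * I := fun x => by push_cast; ring
  have hmax : max (-A) 0 = 0 := max_eq_right (by linarith)
  have hmax' : max A 0 = A := max_eq_left (by linarith)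
  refine hdet (fun z => F z * R z) K A (Φ * l) ε hK hA (by positivity) hε
    (hF.mul hR.differentiableOn) ?_ ?_ ?_ ?_ u u' hu hu' (by simp [z]) (by simp [z'])
  · rw [hI, ENNReal.ofReal_mul hΦ]
    refine le_trans ?_ (mul_le_mul_right h1 _)
    rw [← lintegral_const_mul' _ _ ENNReal.ofReal_ne_top]
    refine setLIntegral_mono' measurableSet_Icc fun x hx => ?_
    rw [← lintegral_const_mul' _ _ ENNReal.ofReal_ne_top]
    refine lintegral_mono_ae ?_
    have h0 : ∀ᵐ y ∂(volume.restrict (Set.Icc (-A) A)), y ≠ (0 : ℝ) :=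
      ae_restrict_of_ae (by simp [ae_iff])
    filter_upwards [h0, ae_restrict_mem measurableSet_Icc] with y hy0 hy
    have := hD x y hx (abs_le.2 hy) hy0
    rw [← ofReal_norm, ← ENNReal.ofReal_mul (norm_nonneg _), ← ENNReal.ofReal_mul hΦ]
    refine ENNReal.ofReal_le_ofReal ?_
    have hm : 0 ≤ max y 0 := le_max_right _ _
    have e : Real.exp (b * max y 0) * Real.exp (-2 * Real.pi * max y 0) ≤
        Real.exp (-b * max y 0) := by
      rw [← Real.exp_add]
      exact Real.exp_le_exp.2 (by nlinarith)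
    calc _ ≤ Φ * Real.exp (b * max y 0) * ‖Ed F R (x + y * I)‖ *
          Real.exp (-2 * Real.pi * max y 0) := by gcongr
      _ = Φ * (‖Ed F R (x + y * I)‖ *
          (Real.exp (b * max y 0) * Real.exp (-2 * Real.pi * max y 0))) := by ring
      _ ≤ _ := by gcongr
  · rw [hI, ENNReal.ofReal_mul hΦ]
    refine le_trans ?_ (mul_le_mul_right h2 _)
    rw [← lintegral_const_mul' _ _ ENNReal.ofReal_ne_top]
    refine setLIntegral_mono' measurableSet_Icc fun x hx => ?_
    have a1 := hD x (-A) hx hAn (neg_ne_zero.2 hA0)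
    have a2 := hD x A hx hAa hA0
    rw [← hneg, hmax, mul_zero, Real.exp_zero, mul_one] at a1
    rw [hmax'] at a2
    rw [← ofReal_norm, ← ofReal_norm, ← ENNReal.ofReal_mul (norm_nonneg _),
      ← ENNReal.ofReal_add (norm_nonneg _) (by positivity), ← ENNReal.ofReal_mul hΦ]
    refine ENNReal.ofReal_le_ofReal ?_
    have e : Real.exp (-2 * Real.pi * A) * Real.exp (b * A) ≤ Real.exp (-b * A) := by
      rw [← Real.exp_add]
      exact Real.exp_le_exp.2 (by nlinarith)
    calc _ ≤ Φ * ‖Ed F R (x - A * I)‖ + Real.exp (-2 * Real.pi * A) *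
          (Φ * Real.exp (b * A) * ‖Ed F R (x + A * I)‖) := by gcongr
      _ = Φ * (‖Ed F R (x - A * I)‖ + ‖Ed F R (x + A * I)‖ *
          (Real.exp (-2 * Real.pi * A) * Real.exp (b * A))) := by ring
      _ ≤ _ := by gcongr
  · have e0 : Φ * l = Φ * Real.exp (-A) * (Real.exp A * l) := by
      rw [Real.exp_neg]
      field_simp
    rw [hI, e0, ENNReal.ofReal_mul (by positivity)]
    refine le_trans ?_ (mul_le_mul_right h3 _)
    rw [← lintegral_const_mul' _ _ ENNReal.ofReal_ne_top]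
    refine setLIntegral_mono' measurableSet_Icc fun x hx => ?_
    have hx2 : |x| ≤ K + 2 := abs_le.2 ⟨by linarith [hx.1], by linarith [hx.2]⟩
    have a1 := hsz (x - A * I) (by simpa using hx2) (by simpa using hAa)
    have a2 := hsz (x + A * I) (by simpa using hx2) (by simpa using hAa)
    have i1 : ((x : ℂ) - A * I).im = -A := by simp
    have i2 : ((x : ℂ) + A * I).im = A := by simp
    rw [i1, hmax, mul_zero, Real.exp_zero, mul_one] at a1
    rw [i2, hmax'] at a2
    rw [← ofReal_norm, ← ofReal_norm, ← ENNReal.ofReal_mul (norm_nonneg _),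
      ← ENNReal.ofReal_add (norm_nonneg _) (by positivity), ← ENNReal.ofReal_mul (by positivity)]
    refine ENNReal.ofReal_le_ofReal ?_
    have e : Real.exp (-2 * Real.pi * A) * Real.exp (b * A) ≤ Real.exp (-b * A) := by
      rw [← Real.exp_add]
      exact Real.exp_le_exp.2 (by nlinarith)
    have e' : Real.exp (-2 * Real.pi * A) ≤ Real.exp (-A) := Real.exp_le_exp.2 (by nlinarith)
    rw [norm_mul, norm_mul]
    calc _ ≤ Real.exp (-A) * (Φ * ‖R (x - A * I)‖ + Real.exp (-2 * Real.pi * A) *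
          (Φ * Real.exp (b * A) * ‖R (x + A * I)‖)) := by gcongr
      _ = Φ * Real.exp (-A) * (‖R (x - A * I)‖ + ‖R (x + A * I)‖ *
          (Real.exp (-2 * Real.pi * A) * Real.exp (b * A))) := by ring
      _ ≤ _ := by gcongr
  · have cR : Continuous fun x : ℝ => R (x - A * I) := hR.continuous.comp (by fun_prop)
    have cF : ContinuousOn (fun x : ℝ => F (x - A * I)) (Set.uIcc 0 1) := by
      refine hF.continuousOn.comp (by fun_prop) fun x hx => ?_
      rw [Set.uIcc_of_le zero_le_one] at hx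
      refine ⟨?_, by simpa using hAa⟩
      have : |x| ≤ K + 2 := abs_le.2 ⟨by linarith [hx.1], by linarith [hx.2]⟩
      simpa using this
    have i1 : IntervalIntegrable (fun x : ℝ => F (x - A * I) * R (x - A * I)) volume 0 1 :=
      (cF.mul cR.continuousOn).intervalIntegrable
    have i2 : IntervalIntegrable (fun x : ℝ => ‖R (x - A * I) - ρ₀‖) volume 0 1 :=
      (cR.sub continuous_const).norm.intervalIntegrable _ _
    have h5' : ∫ x in (0 : ℝ)..1, ‖R (x - A * I) - ρ₀‖ ≤ ‖ρ₀‖ / 10 := by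
      have cR' : Continuous fun x : ℝ => R (x - A * I) - ρ₀ := cR.sub continuous_const
      rw [intervalIntegral.integral_of_le zero_le_one, ← integral_Icc_eq_integral_Ioc,
        integral_norm_eq_lintegral_enorm cR'.aestronglyMeasurable]
      exact ENNReal.toReal_le_of_le_ofReal (by positivity) h5
    have h7 : ‖(∫ x in (0 : ℝ)..1, F (x - A * I) * R (x - A * I)) - fA * ρ₀‖ ≤
        ‖fA‖ * ‖ρ₀‖ / 2 := by
      have e : (∫ x in (0 : ℝ)..1, F (x - A * I) * R (x - A * I)) - fA * ρ₀ =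
          ∫ x in (0 : ℝ)..1, (F (x - A * I) * R (x - A * I) - fA * ρ₀) := by
        rw [intervalIntegral.integral_sub i1 (by simp)]
        simp
      rw [e]
      calc _ ≤ ∫ x in (0 : ℝ)..1, (11 / 10 * ‖fA‖ * ‖R (x - A * I) - ρ₀‖ + ‖fA‖ / 10 * ‖ρ₀‖) := by
            refine intervalIntegral.norm_integral_le_of_norm_le zero_le_one
              (Eventually.of_forall fun x hx => ?_) ((i2.const_mul _).add (by simp))
            have b1 := h4 x hx.1.le hx.2
            have b2 : ‖F (x - A * I)‖ ≤ 11 / 10 * ‖fA‖ := by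
              have := norm_add_le (F (x - A * I) - fA) fA
              rw [sub_add_cancel] at this
              linarith
            have e2 : F (x - A * I) * R (x - A * I) - fA * ρ₀ =
                F (x - A * I) * (R (x - A * I) - ρ₀) + (F (x - A * I) - fA) * ρ₀ := by ring
            rw [e2]
            refine (norm_add_le _ _).trans ?_
            rw [norm_mul, norm_mul]
            gcongr
        _ = 11 / 10 * ‖fA‖ * (∫ x in (0 : ℝ)..1, ‖R (x - A * I) - ρ₀‖) + ‖fA‖ / 10 * ‖ρ₀‖ := by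
            rw [intervalIntegral.integral_add (i2.const_mul _) (by simp),
              intervalIntegral.integral_const_mul]
            simp
        _ ≤ 11 / 10 * ‖fA‖ * (‖ρ₀‖ / 10) + ‖fA‖ / 10 * ‖ρ₀‖ := by gcongr
        _ ≤ _ := by nlinarith [mul_nonneg (norm_nonneg fA) (norm_nonneg ρ₀)]
    have h8 : ‖fA‖ * ‖ρ₀‖ / 2 ≤ ‖∫ x in (0 : ℝ)..1, F (x - A * I) * R (x - A * I)‖ := by
      have := norm_sub_norm_le (fA * ρ₀) (∫ x in (0 : ℝ)..1, F (x - A * I) * R (x - A * I))
      rw [norm_sub_rev, norm_mul] at this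
      linarith
    have := mul_le_mul_of_nonneg_left h8 hε0.le
    linarith

end Pool.Agent.MP_ca0a54_nt.H24
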