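import Pool.Agent.MP_ca0a54_nt.H24.GoodA

/-! From bounds on horizontal lines to bounds in most windows. -/

open Complex MeasureTheory Filter Topology

namespace Pool.Agent.MP_ca0a54_nt.H24

theorem two_lines (G : ℂ → ℂ) (hG : Measurable G) (a b A K M s₁ s₂ t₁ t₂ l : ℝ) (ha : 0 < a)
    (hA : 1 ≤ A) (hK : 1 ≤ K) (hM : 0 ≤ M) (hl : 0 < l) (g₁ : s₁ ≤ t₁ - a * (K + 1))
    (g₂ : t₂ + a * (K + 1) ≤ s₂)
    (h : ∀ y : ℝ, |y| = A → ∫⁻ x in Set.Icc s₁ s₂, ‖G (x + (a * y : ℝ) * I)‖ₑ ≤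
      ENNReal.ofReal (M * Real.exp (b * max y 0))) :
    ∃ S : Set ℝ, volume S ≤ ENNReal.ofReal (4 * (K + 1) * M / l) ∧
      ∀ t ∈ Set.Icc t₁ t₂, t ∉ S → ∫⁻ x in Set.Icc (-(K + 1)) (K + 1),
        (‖G (t + a * (x - A * I))‖ₑ + ‖G (t + a * (x + A * I))‖ₑ *
          ENNReal.ofReal (Real.exp (-b * A))) ≤ ENNReal.ofReal l := by
  set e : ℝ → ENNReal := fun x => ‖G (x + (a * -A : ℝ) * I)‖ₑ + ‖G (x + (a * A : ℝ) * I)‖ₑ *
    ENNReal.ofReal (Real.exp (-b * A)) with he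
  have m1 : ∀ c : ℝ, Measurable fun x : ℝ => ‖G (x + (c : ℝ) * I)‖ₑ := fun c =>
    (hG.comp (by fun_prop)).enorm
  have hm : Measurable e := (m1 _).add ((m1 _).mul_const _)
  obtain ⟨w1, w2⟩ := lint_window e hm t₁ t₂ s₁ s₂ a (K + 1) ha.le g₁ g₂
  have b1 := h (-A) (by rw [abs_neg, abs_of_nonneg (by linarith)])
  have b2 := h A (abs_of_nonneg (by linarith))
  rw [max_eq_right (by linarith), mul_zero, Real.exp_zero, mul_one] at b1
  rw [max_eq_left (by linarith)] at b2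
  have b3 : ∫⁻ x in Set.Icc s₁ s₂, e x ≤ ENNReal.ofReal (2 * M) := by
    rw [he, lintegral_add_left (m1 _), lintegral_mul_const _ (m1 _)]
    calc _ ≤ ENNReal.ofReal M + ENNReal.ofReal (M * Real.exp (b * A)) *
          ENNReal.ofReal (Real.exp (-b * A)) := by gcongr
      _ = _ := by
        rw [← ENNReal.ofReal_mul (by positivity), mul_assoc, ← Real.exp_add,
          ← ENNReal.ofReal_add hM (by positivity)]
        congr 1
        simp
        ring
  have b4 : ∫⁻ t in Set.Icc t₁ t₂, ∫⁻ x in Set.Icc (-(K + 1)) (K + 1), e (t + a * x) ≤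
      ENNReal.ofReal (4 * (K + 1) * M) := by
    refine w2.trans ((mul_le_mul_right b3 _).trans (le_of_eq ?_))
    rw [← ENNReal.ofReal_mul (by linarith)]
    congr 1
    ring
  refine ⟨_, markov _ w1 _ measurableSet_Icc _ l hl b4, fun t ht hS => ?_⟩
  have := not_lt.1 fun hc => hS ⟨ht, hc⟩
  refine le_trans (le_of_eq (lintegral_congr fun x => ?_)) this
  simp only [he]
  congr 3 <;> [skip; congr 1] <;> push_cast <;> ring

theorem area (G : ℂ → ℂ) (hG : Measurable G) (a b A K M s₁ s₂ t₁ t₂ l : ℝ) (ha : 0 < a)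
    (hA : 1 ≤ A) (hK : 1 ≤ K) (hM : 0 ≤ M) (hl : 0 < l) (g₁ : s₁ ≤ t₁ - a * (K + 1))
    (g₂ : t₂ + a * (K + 1) ≤ s₂)
    (h : ∀ y : ℝ, y ≠ 0 → |y| ≤ A → ∫⁻ x in Set.Icc s₁ s₂, ‖G (x + (a * y : ℝ) * I)‖ₑ ≤
      ENNReal.ofReal (M * Real.exp (b * max y 0) * (1 + A + Real.log (1 + 1 / |y|)))) :
    ∃ S : Set ℝ, volume S ≤ ENNReal.ofReal (24 * (K + 1) * M * A ^ 2 / l) ∧
      ∀ t ∈ Set.Icc t₁ t₂, t ∉ S → ∫⁻ x in Set.Icc (-(K + 1)) (K + 1), ∫⁻ y in Set.Icc (-A) A,
        ‖G (t + a * (x + y * I))‖ₑ * ENNReal.ofReal (Real.exp (-b * max y 0)) ≤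
          ENNReal.ofReal l := by
  set e : ℝ → ℝ → ENNReal := fun x y => ‖G (x + (a * y : ℝ) * I)‖ₑ *
    ENNReal.ofReal (Real.exp (-b * max y 0)) with he
  have m1 : Measurable (Function.uncurry e) := by
    refine Measurable.mul (hG.comp (by fun_prop)).enorm ?_
    exact ENNReal.measurable_ofReal.comp (by fun_prop)
  have hm : Measurable fun x => ∫⁻ y in Set.Icc (-A) A, e x y := m1.lintegral_prod_right
  obtain ⟨w1, w2⟩ := lint_window _ hm t₁ t₂ s₁ s₂ a (K + 1) ha.le g₁ g₂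
  have ml : Measurable fun y : ℝ => ENNReal.ofReal (Real.log (1 + 1 / |y|)) :=
    ENNReal.measurable_ofReal.comp (by fun_prop)
  have b3 : ∫⁻ x in Set.Icc s₁ s₂, ∫⁻ y in Set.Icc (-A) A, e x y ≤
      ENNReal.ofReal (12 * M * A ^ 2) := by
    rw [lintegral_lintegral_swap m1.aemeasurable]
    have h0 : ∀ᵐ y ∂(volume.restrict (Set.Icc (-A) A)), y ≠ (0 : ℝ) :=
      ae_restrict_of_ae (by simp [ae_iff])
    calc _ ≤ ∫⁻ y in Set.Icc (-A) A, ENNReal.ofReal M *
          (ENNReal.ofReal (1 + A) + ENNReal.ofReal (Real.log (1 + 1 / |y|))) := by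
          refine lintegral_mono_ae ?_
          filter_upwards [h0, ae_restrict_mem measurableSet_Icc] with y hy0 hy
          have hlog : 0 ≤ Real.log (1 + 1 / |y|) :=
            Real.log_nonneg (by linarith [show 0 ≤ 1 / |y| by positivity])
          have m2 : Measurable fun x : ℝ => ‖G (x + (a * y : ℝ) * I)‖ₑ :=
            (hG.comp (by fun_prop)).enorm
          simp only [he]
          rw [lintegral_mul_const _ m2]
          refine (mul_le_mul_left (h y hy0 (abs_le.2 hy)) _).trans (le_of_eq ?_)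
          rw [← ENNReal.ofReal_mul (by positivity), ← ENNReal.ofReal_add (by linarith) hlog,
            ← ENNReal.ofReal_mul hM]
          congr 1
          have : Real.exp (b * max y 0) * Real.exp (-b * max y 0) = 1 := by
            rw [← Real.exp_add]
            simp
          linear_combination M * (1 + A + Real.log (1 + 1 / |y|)) * this
      _ ≤ ENNReal.ofReal M * (ENNReal.ofReal (1 + A) * ENNReal.ofReal (2 * A) +
          ENNReal.ofReal (8 * A)) := by
          rw [lintegral_const_mul' _ _ ENNReal.ofReal_ne_top, lintegral_add_right _ ml,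
            setLIntegral_const, Real.volume_Icc, show A - -A = 2 * A by ring]
          gcongr
          exact lint_log A hA
      _ ≤ _ := by
          rw [← ENNReal.ofReal_mul (by linarith), ← ENNReal.ofReal_add (by positivity)
            (by linarith), ← ENNReal.ofReal_mul hM]
          refine ENNReal.ofReal_le_ofReal ?_
          have : (1 + A) * (2 * A) + 8 * A ≤ 12 * A ^ 2 := by nlinarith
          nlinarith
  have b4 : ∫⁻ t in Set.Icc t₁ t₂, ∫⁻ x in Set.Icc (-(K + 1)) (K + 1),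
      ∫⁻ y in Set.Icc (-A) A, e (t + a * x) y ≤ ENNReal.ofReal (24 * (K + 1) * M * A ^ 2) := by
    refine w2.trans ((mul_le_mul_right b3 _).trans (le_of_eq ?_))
    rw [← ENNReal.ofReal_mul (by linarith)]
    congr 1
    ring
  refine ⟨_, markov _ w1 _ measurableSet_Icc _ l hl b4, fun t ht hS => ?_⟩
  have := not_lt.1 fun hc => hS ⟨ht, hc⟩
  refine le_trans (le_of_eq (lintegral_congr fun x => lintegral_congr fun y => ?_)) this
  simp only [he]
  congr 3
  push_cast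
  ring

theorem ds_diff (c : ℕ → ℂ) (S : Finset ℕ) : Differentiable ℂ (ds c S) := by
  unfold ds np
  fun_prop

theorem RR_diff (T Y ε₁ : ℝ) : Differentiable ℂ (RR T Y ε₁) :=
  ds_diff (rc (Y / Real.log T : ℝ) 0) (Finset.Icc 1 ⌊T ^ (1 - ε₁)⌋₊)

theorem zf_meas : Measurable L0.zf := by
  have : Measurable riemannZeta := by
    refine measurable_of_countable_not_continuousAt ((Set.countable_singleton (1 : ℂ)).mono ?_)
    intro s hs
    by_contra h
    exact hs (differentiableAt_riemannZeta h).continuousAt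
  exact this.comp (by fun_prop)

/-- The mean size of the mollifier on a horizontal line. -/
theorem RR_line (hm1 : Mvt1Stmt) (ha1 : Ar1Stmt) (C : ℝ) (hC : 1 ≤ C)
    (h2 : ∀ (L Y : ℝ) (N : ℕ), 1 ≤ L → 1 ≤ Y → Real.log N ≤ L →
      ∑ n ∈ Finset.Icc 1 N, (rc 0 (Y / L : ℝ) n).re / n ≤ C * Y)
    (Y ε₁ : ℝ) (hY : 1 ≤ Y) (h0 : 0 < ε₁) : ∀ᶠ T : ℝ in atTop, ∀ s₁ s₂ y : ℝ, s₂ - s₁ ≤ 2 * T →
    ∫⁻ x in Set.Icc s₁ s₂, ‖RR T Y ε₁ (x + y * I)‖ₑ ≤
      ENNReal.ofReal (4 * C * T * Real.exp (Real.log T * max y 0) * Y) := by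
  filter_upwards [hm1 ε₁ h0, eventually_ge_atTop (Real.exp 1)] with T hT hT1 s₁ s₂ y hs
  have hTe : 1 ≤ T := le_trans (by linarith [Real.add_one_le_exp 1]) hT1
  have hT0 : 0 < T := by linarith
  have hL : 1 ≤ Real.log T := by rwa [Real.le_log_iff_exp_le hT0]
  set L := Real.log T with hLd
  set N := ⌊T ^ (1 - ε₁)⌋₊ with hN
  have hN1 : (N : ℝ) ≤ T ^ (1 - ε₁) := Nat.floor_le (by positivity)
  have hN2 : (N : ℝ) ≤ T := hN1.trans (by
    simpa using Real.rpow_le_rpow_of_exponent_le hTe (show 1 - ε₁ ≤ 1 by linarith))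
  have hlog : ∀ n : ℕ, (n : ℝ) ≤ T → Real.log n ≤ L := fun n hn => by
    rcases Nat.eq_zero_or_pos n with rfl | h
    · simp
      linarith
    · exact Real.log_le_log (by exact_mod_cast h) hn
  have hy0 : 0 ≤ Y / L := by positivity
  have hb := fun n => ha1.2.2.2.2.1 (Y / L) n hy0
  have h3 := hT N (rc (Y / L : ℝ) 0) (Finset.Icc 1 N) (y * I) s₁ s₂ hN1 le_rfl
    (fun n _ => ((hb n).1.trans (hb n).2.1).trans (one_le_pow₀ hL)) hs
  refine h3.trans (ENNReal.ofReal_le_ofReal ?_)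
  have him : ((y : ℂ) * I).im = y := by simp
  rw [him]
  set E := Real.exp (L * max y 0) with hE
  have hE2 : Real.exp (2 * L * max y 0) = E ^ 2 := by
    rw [hE, ← Real.exp_nat_mul]
    congr 1
    push_cast
    ring
  have hms : ms (rc (Y / L : ℝ) 0) (Finset.Icc 1 N) y ≤ E ^ 2 * (C * Y) := by
    refine le_trans ?_ (mul_le_mul_of_nonneg_left (h2 L Y N hL hY (hlog N hN2)) (sq_nonneg E))
    rw [Finset.mul_sum]
    refine Finset.sum_le_sum fun n hn => ?_
    have hn1 : (1 : ℝ) ≤ n := by exact_mod_cast (Finset.mem_Icc.1 hn).1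
    have hn2 : Real.log n ≤ L :=
      hlog n (le_trans (by exact_mod_cast (Finset.mem_Icc.1 hn).2) hN2)
    have hl0 := Real.log_nonneg hn1
    have e1 : Real.exp ((2 * y - 1) * Real.log n) ≤ E ^ 2 / n := by
      rw [← hE2, le_div_iff₀ (by linarith)]
      nth_rewrite 2 [← Real.exp_log (show (0 : ℝ) < n by linarith)]
      rw [← Real.exp_add]
      refine Real.exp_le_exp.2 ?_
      have := le_max_left y 0
      have := le_max_right y 0
      nlinarith
    have e2 : ‖rc (Y / L : ℝ) 0 n‖ ^ 2 ≤ (rc 0 (Y / L : ℝ) n).re := by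
      have := (hb n).1
      have := (hb n).2.1
      nlinarith [norm_nonneg (rc (Y / L : ℝ) 0 n)]
    calc _ ≤ (rc 0 (Y / L : ℝ) n).re * (E ^ 2 / n) := by
          gcongr
          exact (sq_nonneg _).trans e2
      _ = _ := by ring
  have h4 : T ^ (-(ε₁ / 2)) ≤ 1 := Real.rpow_le_one_of_one_le_of_nonpos hTe (by linarith)
  have hE0 : 0 < E := Real.exp_pos _
  have hCY : 1 ≤ C * Y := one_le_mul_of_one_le_of_one_le hC hY
  have h5 : √(ms (rc (Y / L : ℝ) 0) (Finset.Icc 1 N) y +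
      T ^ (-(ε₁ / 2)) * Real.exp (2 * L * max y 0)) ≤ 2 * (C * Y) * E := by
    rw [Real.sqrt_le_left (by positivity), hE2]
    have h6 : T ^ (-(ε₁ / 2)) * E ^ 2 ≤ 1 * E ^ 2 := by gcongr
    have h7 : C * Y + 1 ≤ 4 * (C * Y) ^ 2 := by nlinarith
    nlinarith [mul_le_mul_of_nonneg_left h7 (sq_nonneg E)]
  calc _ ≤ 2 * T * (2 * (C * Y) * E) := by gcongr
    _ = _ := by ring

end Pool.Agent.MP_ca0a54_nt.H24
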