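import Pool.Agent.MP_ca0a54_nt.L0.Defs

/-!
Rigidity of zeta zeros without small gaps: definitions and the statements of the steps.
`L` always means `Real.log T`, `a = ab / L` is the period, `y = Y / L` the shift.
-/

open Complex MeasureTheory Filter Topology

namespace Pool.Agent.MP_ca0a54_nt.H24

open Pool.Agent.MP_ca0a54_nt.L0

/-- `n ^ (-z)`. -/
noncomputable def np (z : ℂ) (n : ℕ) : ℂ := exp (-z * (Real.log n : ℂ))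

/-- Dirichlet convolution. -/
noncomputable abbrev cv (f g : ℕ → ℂ) : ℕ → ℂ := LSeries.convolution f g

/-- The coefficients of `ζ(s + u) / ζ(s + v)`. -/
noncomputable def rc (u v : ℂ) : ℕ → ℂ :=
  cv (np u) fun n => ((ArithmeticFunction.moebius n : ℤ) : ℂ) * np v n

/-- Truncation at `N`. -/
def cut (c : ℕ → ℂ) (N : ℕ) (n : ℕ) : ℂ := if n ≤ N then c n else 0

/-- `∑_{n ∈ S} c n · n ^ (-1/2 - i w)`. -/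
noncomputable def ds (c : ℕ → ℂ) (S : Finset ℕ) (w : ℂ) : ℂ :=
  ∑ n ∈ S, c n * np (1 / 2 + I * w) n

/-- `∑_{1 ≤ n ≤ N} c n · n ^ (-1/2 - i w)`. -/
noncomputable def dp (c : ℕ → ℂ) (N : ℕ) (w : ℂ) : ℂ := ds c (Finset.Icc 1 N) w

/-- `∑_{n ∈ S} |c n|^2 n ^ (2 y - 1)`. -/
noncomputable def ms (c : ℕ → ℂ) (S : Finset ℕ) (y : ℝ) : ℝ :=
  ∑ n ∈ S, ‖c n‖ ^ 2 * Real.exp ((2 * y - 1) * Real.log n)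

/-- The integers `n ≤ M` with `x < n ≤ x e^τ`. -/
noncomputable def win (M : ℕ) (x τ : ℝ) : Finset ℕ :=
  (Finset.Icc 1 M).filter fun n => x < (n : ℝ) ∧ (n : ℝ) ≤ x * Real.exp τ

/-- The zeros of `zf` in the strip `T ≤ re w ≤ 2 T` are the points of `U`; they are simple and
`δ`-separated. -/
structure Clean (T δ : ℝ) (U : Finset ℝ) : Prop where
  zeros : ∀ w : ℂ, T ≤ w.re → w.re ≤ 2 * T → (zf w = 0 ↔ ∃ u ∈ U, w = u)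
  simple : ∀ u ∈ U, deriv zf u ≠ 0
  sep : ∀ u ∈ U, ∀ u' ∈ U, u ≠ u' → δ ≤ |u - u'|
  mem : ∀ u ∈ U, T ≤ u ∧ u ≤ 2 * T

/-- Local factorization of `zf` near `t`. -/
structure LF (C T t : ℝ) (U : Finset ℝ) (h : ℂ → ℂ) : Prop where
  diff : DifferentiableOn ℂ h (Metric.ball (t : ℂ) √T)
  fac : ∀ w ∈ Metric.ball (t : ℂ) √T, zf w = (∏ u ∈ U, (w - (u : ℂ))) * exp (h w)
  d1 : ∀ w ∈ Metric.ball (t : ℂ) √T, ‖deriv h w‖ ≤ C * Real.log T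
  d2 : ∀ w ∈ Metric.ball (t : ℂ) √T, ∀ w' ∈ Metric.ball (t : ℂ) √T,
    ‖deriv h w - deriv h w'‖ ≤ C * Real.log T / T * ‖w - w'‖
  ph : |(deriv h t).im + Real.log T / 2| ≤ C

/-- `p(w) / p(w + a)`. -/
noncomputable def vp (U : Finset ℝ) (a : ℝ) (w : ℂ) : ℂ :=
  (∏ u ∈ U, (w - (u : ℂ))) / ∏ u ∈ U, (w + a - (u : ℂ))

/-- Minus the residue of `vp` at `u - a`. -/
noncomputable def bt (U : Finset ℝ) (a u : ℝ) : ℝ := -(pv U (u - a) / pd U u)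

/-- `zf w / zf (w + a)`. -/
noncomputable def Bq (a : ℝ) (w : ℂ) : ℂ := zf w / zf (w + a)

/-- The logarithmic derivative of `zf`. -/
noncomputable def ld (w : ℂ) : ℂ := deriv zf w / zf w

/-- A real rational function with simple real poles. -/
noncomputable def rat (c₀ : ℝ) (U : Finset ℝ) (ρ v : ℝ → ℝ) (z : ℂ) : ℂ :=
  c₀ + ∑ u ∈ U, (ρ u : ℂ) / (z - (v u : ℂ))

/-- The majorant of the kernel. -/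
noncomputable def km (Δ : ℝ) (ζ : ℂ) : ℝ :=
  Real.exp (-ζ.re ^ 2) * min (1 / ‖ζ‖) (1 / (Δ * ‖ζ‖ ^ 2))

/-- `Λ(d) (1 - d^{-y}) d^{-α} / log d`. -/
noncomputable def pc (y α : ℝ) (d : ℕ) : ℂ :=
  ((ArithmeticFunction.vonMangoldt d * (1 - Real.exp (-y * Real.log d)) / Real.log d *
    Real.exp (-α * Real.log d) : ℝ) : ℂ)

/-- The primes in `(T^κ, T^κ']`. -/
noncomputable def pr (T κ κ' : ℝ) : Finset ℕ :=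
  (Finset.Icc 1 ⌊T ^ κ'⌋₊).filter fun p => p.Prime ∧ T ^ κ < (p : ℝ)

/-- The admissible parameters. -/
structure Par (Y ε₁ ab : ℝ) : Prop where
  hY : 7 ≤ Y
  e0 : 0 < ε₁
  e1 : ε₁ * Y ≤ 1
  a0 : 3 ≤ ab
  a1 : ab ≤ Real.pi
  a2 : (Real.pi - ab) * Y ≤ 1

/-- The mollifier: the truncation of `ζ(s + y) / ζ(s)` at `T^(1 - ε₁)`. -/
noncomputable def RR (T Y ε₁ : ℝ) (w : ℂ) : ℂ :=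
  dp (rc (Y / Real.log T : ℝ) 0) ⌊T ^ (1 - ε₁)⌋₊ w

/-! ### Mean values -/

/-- Bilinear mean value theorem. -/
def MvtStmt : Prop := ∃ K : ℝ, 0 < K ∧ ∀ (N : ℕ) (c d : ℕ → ℂ) (S S' : Finset ℕ) (B B' t₁ t₂ : ℝ),
  S ⊆ Finset.Icc 1 N → S' ⊆ Finset.Icc 1 N → 0 ≤ B → 0 ≤ B' → (∀ n ∈ S, ‖c n‖ ≤ B) →
  (∀ n ∈ S', ‖d n‖ ≤ B') →
  ‖(∫ t in t₁..t₂, ds c S t * (starRingEnd ℂ) (ds d S' t)) -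
    ((t₂ - t₁ : ℝ) : ℂ) * ∑ n ∈ S ∩ S', c n * (starRingEnd ℂ) (d n) / n‖ ≤
    K * B * B' * N * (1 + Real.log N)

/-- Mean value theorem in `L^1` on a shifted line. -/
def Mvt1Stmt : Prop := ∀ ε : ℝ, 0 < ε → ∀ᶠ T : ℝ in atTop, ∀ (N : ℕ) (c : ℕ → ℂ) (S : Finset ℕ)
  (z : ℂ) (t₁ t₂ : ℝ), (N : ℝ) ≤ T ^ (1 - ε) → S ⊆ Finset.Icc 1 N →
  (∀ n ∈ S, ‖c n‖ ≤ Real.log T ^ 3) → t₂ - t₁ ≤ 2 * T →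
  ∫⁻ t in Set.Icc t₁ t₂, ‖ds c S (t + z)‖ₑ ≤ ENNReal.ofReal (2 * T *
    √(ms c S z.im + T ^ (-(ε / 2)) * Real.exp (2 * Real.log T * max z.im 0)))

/-! ### Row LF -/

def LFStmt : Prop := ∀ η : ℝ, 0 < η → ∃ C : ℝ, 1 ≤ C ∧ ∀ᶠ T : ℝ in atTop, ∀ (δ : ℝ) (U : Finset ℝ),
  1 / Real.log T ≤ δ → Clean T δ U → ∀ t : ℝ, (1 + η) * T ≤ t → t ≤ (2 - η) * T →
  ∃ h : ℂ → ℂ, LF C T t U h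

/-! ### Row SC: Cauchy's theorem on strips, the kernel -/

def ShiftStmt : Prop := ∀ (H : ℂ → ℂ) (γ₁ γ₂ M t : ℝ), γ₁ ≤ γ₂ →
  DifferentiableOn ℂ H {z | γ₁ ≤ z.im ∧ z.im ≤ γ₂} →
  (∀ z : ℂ, γ₁ ≤ z.im → z.im ≤ γ₂ → ‖H z‖ ≤ M * Real.exp (-(z.re - t) ^ 2 / 2)) →
  ∫ x : ℝ, H (x + γ₁ * I) = ∫ x : ℝ, H (x + γ₂ * I)

def PoleStmt : Prop := ∀ (H : ℂ → ℂ) (γ₁ γ₂ M t : ℝ) (v : ℂ), γ₁ < v.im → v.im < γ₂ →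
  DifferentiableOn ℂ H {z | γ₁ ≤ z.im ∧ z.im ≤ γ₂} →
  (∀ z : ℂ, γ₁ ≤ z.im → z.im ≤ γ₂ → ‖H z‖ ≤ M * Real.exp (-(z.re - t) ^ 2 / 2)) →
  (∫ x : ℝ, H (x + γ₁ * I) / (x + γ₁ * I - v)) - ∫ x : ℝ, H (x + γ₂ * I) / (x + γ₂ * I - v) =
    2 * Real.pi * I * H v

def KerStmt : Prop := ∀ ξ Δ : ℝ, 0 < Δ → ∃ k : ℂ → ℂ, Differentiable ℂ k ∧ k 0 = 1 ∧
  (∀ ζ : ℂ, ‖k ζ‖ ≤ 2 * Real.exp (ζ.im ^ 2 - ζ.re ^ 2) *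
    max (Real.exp (-ξ * ζ.im)) (Real.exp (-(ξ + Δ) * ζ.im))) ∧
  ∀ ζ : ℂ, ‖k ζ / ζ‖ ≤ 2 * Real.exp (ζ.im ^ 2) *
    max (Real.exp (-ξ * ζ.im)) (Real.exp (-(ξ + Δ) * ζ.im)) * km Δ ζ

def KmStmt : Prop := ∀ Δ y x₀ : ℝ, 0 < Δ → y ≠ 0 →
  ∫⁻ x : ℝ, ENNReal.ofReal (km Δ (x₀ - (x + y * I))) ≤
    ENNReal.ofReal (4 * (1 + Real.log (1 + 1 / (Δ * |y|))))

/-! ### Row PF: simple fractions and the comparison with zeta -/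

def PFStmt : Prop := ∀ (U : Finset ℝ) (a : ℝ), 0 < a →
  (∀ u ∈ U, ∀ u' ∈ U, u ≠ u' → a < |u - u'|) →
  (∀ u ∈ U, 0 < bt U a u) ∧ ∑ u ∈ U, bt U a u = a * U.card ∧
  ∀ w : ℂ, w.im ≠ 0 → vp U a w = rat 1 U (fun u => -bt U a u) (fun u => u - a) w

def SepStmt : Prop := ∀ (U : Finset ℝ) (a s x : ℝ), 0 < a → a ≤ s →
  (∀ u ∈ U, ∀ u' ∈ U, u ≠ u' → a ≤ |u - u'|) →
  ∑ u ∈ U, 1 / ((x - u) ^ 2 + s ^ 2) ≤ 6 / (a * s)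

def LineStmt : Prop := ∀ C : ℝ, 1 ≤ C → ∃ C' : ℝ, 1 ≤ C' ∧ ∀ᶠ T : ℝ in atTop,
  ∀ (a δ t : ℝ) (U : Finset ℝ) (h : ℂ → ℂ), 1 / Real.log T ≤ a → a ≤ 4 / Real.log T → a < δ →
  Clean T δ U → LF C T t U h →
  (∃ ϑ : ℂ, 1 / C' ≤ ‖ϑ‖ ∧ ‖ϑ‖ ≤ C' ∧
    ‖ϑ - ‖ϑ‖ * exp (-I * (a * Real.log T / 2 : ℝ))‖ ≤ C' / Real.log T ∧
    (∀ z : ℂ, -1 ≤ z.im → z.im ≤ -1 / 2 → ‖vp U a z - ϑ * Bq a z‖ ≤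
      C' / T * (1 + ‖Bq a z‖) * Real.exp ((z.re - t) ^ 2 / 4)) ∧
    ∀ w : ℂ, ‖w - t‖ ≤ 1 → w.im ≠ 0 → ‖ϑ * Bq a w - vp U a w‖ ≤ C' / T * ‖vp U a w‖) ∧
  (∀ z : ℂ, -1 ≤ z.im → z.im ≤ -1 / 2 →
    ‖rat 0 U (fun _ => 1) (fun u => u) z - (ld z - deriv h t)‖ ≤
      C' * Real.log T / T * (1 + ‖ld z‖) * Real.exp ((z.re - t) ^ 2 / 4)) ∧
  ∀ w : ℂ, ‖w - t‖ ≤ 1 → w.im ≠ 0 →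
    ‖rat 0 U (fun _ => 1) (fun u => u) w - (ld w - deriv h t)‖ ≤ C' * Real.log T / T

/-! ### Rows GKL and QID: the two contour identities -/

/-- On the line `im z = -(1/2 + ε/8)` the rational function is close to a Dirichlet series. -/
structure App (T ε t c₀ : ℝ) (U : Finset ℝ) (ρ v : ℝ → ℝ) (d : ℕ → ℂ) : Prop where
  hd : ∀ n : ℕ, ‖d n‖ ≤ Real.log T ^ 2 * Real.exp (ε / 16 * Real.log n)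
  app : ∀ x : ℝ, ‖rat c₀ U ρ v (x - (1 / 2 + ε / 8 : ℝ) * I) -
    LSeries d (1 / 2 + I * (x - (1 / 2 + ε / 8 : ℝ) * I))‖ ≤
      Real.log T ^ 3 / T * Real.exp ((x - t) ^ 2 / 4)

def GklStmt : Prop := ∃ C₀ : ℝ, 1 ≤ C₀ ∧ ∀ ε : ℝ, 0 < ε → ε ≤ 1 / 2 → ∀ᶠ T : ℝ in atTop,
  ∀ (ξ Δ : ℝ) (N N₂ : ℕ), 1 ≤ N → Real.log N + ε * Real.log T / 4 ≤ ξ → 0 < Δ →
  ξ + Δ + ε * Real.log T / 4 ≤ Real.log N₂ → (N₂ : ℝ) ≤ T →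
  ∃ χ : ℕ → ℂ, (∀ n, ‖χ n‖ ≤ C₀ * (1 + Real.log (1 + Real.log T / Δ))) ∧
    ∀ (c₀ : ℝ) (U : Finset ℝ) (ρ v : ℝ → ℝ) (d r : ℕ → ℂ) (w : ℂ), (∀ n, ‖r n‖ ≤ 1) →
    w.im ≠ 0 → |w.im| ≤ 1 / 40 → App T ε w.re c₀ U ρ v d →
    ‖rat c₀ U ρ v w * dp r N w - dp (cv d (cut r N)) N w -
      ds (fun n => cv d (cut r N) n * χ n) (Finset.Ioc N N₂) w‖ ≤
      4 * max (Real.exp (ξ * w.im)) (Real.exp ((ξ + Δ) * w.im)) *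
        ∑ u ∈ U, |ρ u| * ‖dp r N (v u)‖ * km Δ (v u - w) + T ^ (-(1 / 4) : ℝ)

def QidStmt : Prop := ∀ ε : ℝ, 0 < ε → ε ≤ 1 / 2 → ∀ᶠ T : ℝ in atTop,
  ∀ (N N₂ : ℕ), 1 ≤ N → (N : ℝ) ≤ T ^ (1 - ε) →
  Real.log N + ε * Real.log T / 4 ≤ Real.log N₂ → (N₂ : ℝ) ≤ T →
  ∀ (t c₀ : ℝ) (U : Finset ℝ) (ρ v : ℝ → ℝ) (d r : ℕ → ℂ), (∀ n, ‖r n‖ ≤ 1) →
    App T ε t c₀ U ρ v d →
    |Real.pi * ∑ u ∈ U, ρ u * ‖dp r N (v u)‖ ^ 2 * Real.exp (-(v u - t) ^ 2) -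
      (∫ x : ℝ, dp (cv d (cut r N)) N₂ (t + x : ℝ) * (starRingEnd ℂ) (dp r N (t + x : ℝ)) *
        (Real.exp (-x ^ 2) : ℝ)).im| ≤ T ^ (-(ε / 2))

/-! ### Rows AR1 and AR2: arithmetic -/

def Ar1Stmt : Prop :=
  (∀ u v w : ℂ, cv (rc u v) (rc w u) = rc w v) ∧
  (∀ (u v z : ℂ) (n : ℕ), rc (u + z) (v + z) n = rc u v n * np z n) ∧
  (∀ u v s : ℂ, 1 < (s + u).re → 1 < (s + v).re →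
    LSeriesSummable (rc u v) s ∧ LSeries (rc u v) s = riemannZeta (s + u) / riemannZeta (s + v)) ∧
  (∀ u v : ℂ, rc u v 0 = 0 ∧ rc u v 1 = 1 ∧
    (∀ m n : ℕ, m.Coprime n → rc u v (m * n) = rc u v m * rc u v n) ∧
    ∀ p k : ℕ, p.Prime → rc u v (p ^ (k + 1)) = np u p ^ k * (np u p - np v p)) ∧
  (∀ (y : ℝ) (n : ℕ), 0 ≤ y → ‖rc y 0 n‖ ≤ (rc 0 y n).re ∧ (rc 0 y n).re ≤ 1 ∧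
    (rc 0 y n).im = 0 ∧ (rc y 0 n).im = 0 ∧ (n ≠ 1 → ‖rc y 0 n‖ ≤ y * Real.log n)) ∧
  (∀ (a : ℝ) (n : ℕ), 0 ≤ a → ∑ k ∈ n.divisors, ‖rc 0 (I * a) k‖ ≤ Real.exp (a * Real.log n)) ∧
  (∀ (y : ℝ) (n : ℕ), rc y 0 n * (Real.log n : ℂ) =
    -cv (fun d => ((ArithmeticFunction.vonMangoldt d * (1 - Real.exp (-y * Real.log d)) : ℝ) : ℂ))
      (rc y 0) n) ∧
  ∀ (α : ℝ) (N : ℕ), 0 < α → α ≤ 1 → ∑ n ∈ Finset.Icc 1 N,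
    ArithmeticFunction.vonMangoldt n * Real.exp (-(1 + α) * Real.log n) ≤ 12 / α

def Ar2Stmt : Prop := ∃ C : ℝ, 1 ≤ C ∧
  (∀ (L Y : ℝ) (N : ℕ), 1 ≤ L → 1 ≤ Y → Real.log N ≤ L →
    ∑ n ∈ Finset.Icc 1 N, (rc 0 (Y / L : ℝ) n).re / n ≤ C * Y) ∧
  (∀ (L Y ab : ℝ) (N : ℕ), 7 ≤ Y → Y ^ 2 ≤ L → 0 ≤ ab → ab ≤ Real.pi → Real.log N ≤ L →
    ∑ n ∈ Finset.Icc 1 N, ‖rc (Y / L : ℝ) (I * (ab / L : ℝ)) n -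
      rc (Y / L : ℝ) 0 n * np (I * (ab / L : ℝ)) n‖ ^ 2 / n ≤ C) ∧
  (∀ (L ab : ℝ) (N M : ℕ) (r : ℕ → ℂ), 1 ≤ L → 0 ≤ ab → ab ≤ Real.pi → Real.log M ≤ L →
    (∀ n, ‖r n‖ ≤ 1) →
    (∀ n ≤ M, ‖cv (rc 0 (I * (ab / L : ℝ))) (cut r N) n‖ ≤ C) ∧
    ∀ W τ : ℝ, (∀ x : ℝ, 0 < x → ∑ n ∈ win N x τ, ‖r n‖ ^ 2 / n ≤ W) → ∀ x : ℝ, 0 < x →
      ∑ n ∈ win M x τ, ‖cv (rc 0 (I * (ab / L : ℝ))) (cut r N) n‖ ^ 2 / n ≤ C * W) ∧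
  ∀ L Y ab : ℝ, 7 ≤ Y → Y ^ 2 ≤ L → 0 ≤ ab → ab ≤ Real.pi →
    (Summable fun n : ℕ => ‖rc (Y / L : ℝ) (I * (ab / L : ℝ)) n‖ *
      Real.exp (-(1 + 1 / L) * Real.log n)) ∧
    ∑' n : ℕ, ‖rc (Y / L : ℝ) (I * (ab / L : ℝ)) n‖ * Real.exp (-(1 + 1 / L) * Real.log n) ≤
      C * Y ∧
    ∀ (M : ℕ) (W τ : ℝ),
      (∀ x : ℝ, 0 < x → ∑ n ∈ win M x τ, (rc 0 (Y / L : ℝ) n).re / n ≤ W) → ∀ x : ℝ, 0 < x →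
      ∑ n ∈ win M x τ, ‖rc (Y / L : ℝ) (I * (ab / L : ℝ)) n‖ / n ≤ C * W

/-! ### Rows RL, KAR, S1 -/

def RLStmt : Prop := ∀ Y ab s : ℝ, 0 < Y → 0 < s →
  Tendsto (fun L : ℝ => ∑' n : ℕ, rc (Y / L : ℝ) (I * (ab / L : ℝ)) n *
    (starRingEnd ℂ) (rc (Y / L : ℝ) 0 n) * (Real.exp (-(1 + s / L) * Real.log n) : ℝ)) atTop
    (𝓝 ((s + Y) * (s + Y + I * ab) / ((s + 2 * Y) * (s + I * ab))))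

def KarStmt : Prop := ∀ (c : ℝ → ℕ → ℂ) (g : ℝ → ℂ) (G M : ℝ), Continuous g →
  (∀ v, 0 ≤ v → ‖g v‖ ≤ G) → (∀ L, c L 0 = 0) →
  (∀ k : ℕ, 1 ≤ k → Tendsto
    (fun L : ℝ => ∑' n : ℕ, c L n * (Real.exp (-(1 + k / L) * Real.log n) : ℝ)) atTop
    (𝓝 (1 + ∫ v in Set.Ioi (0 : ℝ), g v * (Real.exp (-k * v) : ℝ)))) →
  (∀ᶠ L : ℝ in atTop, (Summable fun n : ℕ => ‖c L n‖ * Real.exp (-(1 + 1 / L) * Real.log n)) ∧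
    ∑' n : ℕ, ‖c L n‖ * Real.exp (-(1 + 1 / L) * Real.log n) ≤ M) →
  ∀ (φ : ℝ → ℝ) (v₁ : ℝ), Continuous φ → (∀ v, v₁ ≤ v → φ v = 0) →
  Tendsto (fun L : ℝ => ∑' n : ℕ, c L n * (φ (Real.log n / L) / n : ℝ)) atTop
    (𝓝 (φ 0 + ∫ v in Set.Ioi (0 : ℝ), g v * φ v))

def M1Stmt : Prop := ∀ Y τ : ℝ, 1 ≤ Y → 0 < τ → Y * τ ≤ 1 → ∀ᶠ L : ℝ in atTop,
  ∀ (M : ℕ) (x : ℝ), Real.log M ≤ L → 0 < x →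
  ∑ n ∈ win M x (τ * L), (rc 0 (Y / L : ℝ) n).re / n ≤ 8

def S1Stmt : Prop := ∃ C : ℝ, 1 ≤ C ∧ ∀ Y ε₁ ab : ℝ, Par Y ε₁ ab → ∀ᶠ T : ℝ in atTop,
  -(exp (-I * (ab / 2 : ℝ)) * ∑ n ∈ Finset.Icc 1 ⌊T ^ (1 - ε₁)⌋₊,
    rc (Y / Real.log T : ℝ) (I * (ab / Real.log T : ℝ)) n *
      (starRingEnd ℂ) (rc (Y / Real.log T : ℝ) 0 n) / n).im ≤ C

/-! ### Rows PQ and PB -/

def PQStmt : Prop := ∀ η : ℝ, 0 < η → ∃ C : ℝ, 1 ≤ C ∧ ∀ Y ε₁ ab : ℝ, Par Y ε₁ ab →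
  ∀ᶠ T : ℝ in atTop, ∀ (δ : ℝ) (U : Finset ℝ), ab / Real.log T < δ → Clean T δ U →
  ∑ u ∈ U.filter fun u => (1 + 2 * η) * T ≤ u ∧ u ≤ (2 - 2 * η) * T,
    bt U (ab / Real.log T) u * ‖RR T Y ε₁ (u - ab / Real.log T : ℝ)‖ ^ 2 ≤ C * T

def PBStmt : Prop := ∀ η : ℝ, 0 < η → ∃ C : ℝ, 1 ≤ C ∧ ∀ Y ε₁ ab : ℝ, Par Y ε₁ ab →
  ∀ᶠ T : ℝ in atTop, ∀ (δ : ℝ) (U : Finset ℝ), ab / Real.log T < δ → Clean T δ U →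
  ∀ y : ℝ, y ≠ 0 → |y| ≤ 1 / 40 →
  ∫⁻ x in Set.Icc ((1 + 3 * η) * T) ((2 - 3 * η) * T),
    ‖Bq (ab / Real.log T) (x + y * I) * RR T Y ε₁ (x + y * I) -
      RR T Y ε₁ (x + y * I + (ab / Real.log T : ℝ))‖ₑ ≤
    ENNReal.ofReal (C * T * Real.exp (Real.log T * max y 0) *
      (1 + Real.log (1 / ε₁) + Real.log (1 + 1 / (Real.log T * |y|))))

/-! ### Rows SZ, SF, PC: the size of zeta in a window -/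

def SzStmt : Prop := ∀ C : ℝ, 1 ≤ C → ∃ C₁ : ℝ, 1 ≤ C₁ ∧ ∀ K A : ℝ, 1 ≤ K → 1 ≤ A →
  ∀ᶠ T : ℝ in atTop, ∀ (a δ t Λ σ : ℝ) (U : Finset ℝ) (h : ℂ → ℂ), 1 / Real.log T ≤ a →
  a ≤ 4 / Real.log T → a < δ → Clean T δ U → LF C T t U h → 0 ≤ Λ →
  ∫⁻ s in Set.Icc a (A * a), ‖ld (t - s * I)‖ₑ ≤ ENNReal.ofReal Λ →
  a * ‖ld (t - (A * a : ℝ) * I)‖ ≤ σ →
  zf (t - (A * a : ℝ) * I) ≠ 0 ∧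
  (∀ w : ℂ, |w.re - t| ≤ K * a → |w.im| ≤ A * a → ‖zf w‖ ≤
    Real.exp (Λ + K * σ + C₁ * K ^ 2 * (1 + Real.log A)) * ‖zf (t - (A * a : ℝ) * I)‖ *
      Real.exp (Real.log T * max w.im 0)) ∧
  ∀ x : ℝ, 0 ≤ x → x ≤ 1 → ‖zf (t + a * x - (A * a : ℝ) * I) - zf (t - (A * a : ℝ) * I)‖ ≤
    (Real.exp (σ + C₁ / A) - 1) * ‖zf (t - (A * a : ℝ) * I)‖

def SfStmt : Prop := ∀ C : ℝ, 1 ≤ C → ∃ C₂ : ℝ, 1 ≤ C₂ ∧ ∀ᶠ T : ℝ in atTop, ∃ χ : ℕ → ℂ,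
  (∀ n, ‖χ n‖ ≤ C₂) ∧ ∀ (a δ t s : ℝ) (U : Finset ℝ) (h : ℂ → ℂ), 1 / Real.log T ≤ a →
  a ≤ 4 / Real.log T → a < δ → Clean T δ U → LF C T t U h → a ≤ s → s ≤ 1 / 40 →
  ‖ld (t - s * I)‖ ≤ ‖ds (fun n => (ArithmeticFunction.vonMangoldt n : ℝ) * χ n)
    (Finset.Ioc 1 ⌊T ^ (3 / 4 : ℝ)⌋₊) (t - s * I)‖ + C₂ / s

def PCStmt : Prop := ∀ η ε : ℝ, 0 < η → 0 < ε → ∃ C : ℝ, 2 ≤ C ∧ ∀ K A ab : ℝ, 1 ≤ K → C ≤ A →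
  1 ≤ ab → ab ≤ 4 → ∀ᶠ T : ℝ in atTop, ∀ (δ : ℝ) (U : Finset ℝ), ab / Real.log T < δ →
  Clean T δ U → ∃ S : Set ℝ, volume S ≤ ENNReal.ofReal (ε * T) ∧
  ∀ t : ℝ, (1 + η) * T ≤ t → t ≤ (2 - η) * T → t ∉ S →
  zf (t - (A * (ab / Real.log T) : ℝ) * I) ≠ 0 ∧
  (∀ w : ℂ, |w.re - t| ≤ K * (ab / Real.log T) → |w.im| ≤ A * (ab / Real.log T) → ‖zf w‖ ≤
    A ^ (C * K ^ 2) * ‖zf (t - (A * (ab / Real.log T) : ℝ) * I)‖ *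
      Real.exp (Real.log T * max w.im 0)) ∧
  ∀ x : ℝ, 0 ≤ x → x ≤ 1 →
    ‖zf (t + (ab / Real.log T : ℝ) * x - (A * (ab / Real.log T) : ℝ) * I) -
      zf (t - (A * (ab / Real.log T) : ℝ) * I)‖ ≤ ‖zf (t - (A * (ab / Real.log T) : ℝ) * I)‖ / 10

/-! ### Row DET: almost periodic functions have lattice zeros -/

def DetStmt : Prop := ∀ (Ψ : ℂ → ℂ) (K A Δ ε : ℝ), 1 ≤ K → 1 ≤ A → 0 ≤ Δ → ε ≤ 1 →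
  DifferentiableOn ℂ Ψ {z | |z.re| ≤ K + 2 ∧ |z.im| ≤ A} →
  ∫⁻ x in Set.Icc (-K - 1) (K + 1), ∫⁻ y in Set.Icc (-A) A, ENNReal.ofReal
    (‖Ψ (x + y * I + 1) - Ψ (x + y * I)‖ * Real.exp (-2 * Real.pi * max y 0)) ≤
      ENNReal.ofReal Δ →
  ∫⁻ x in Set.Icc (-K - 1) (K + 1), ENNReal.ofReal (‖Ψ (x - A * I + 1) - Ψ (x - A * I)‖ +
    Real.exp (-2 * Real.pi * A) * ‖Ψ (x + A * I + 1) - Ψ (x + A * I)‖) ≤ ENNReal.ofReal Δ →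
  ∫⁻ x in Set.Icc (-K - 1) (K + 1), ENNReal.ofReal (Real.exp (-2 * Real.pi * A) *
    (‖Ψ (x - A * I)‖ + Real.exp (-2 * Real.pi * A) * ‖Ψ (x + A * I)‖)) ≤ ENNReal.ofReal Δ →
  30 * Δ < ε * ‖∫ x in (0 : ℝ)..1, Ψ (x - A * I)‖ →
  ∀ u u' : ℝ, |u| ≤ K → |u'| ≤ K → Ψ u = 0 → Ψ u' = 0 → ∃ k : ℤ, |u' - u - k| ≤ ε

/-! ### Rows ODE, PROB, PRIMES, PA: the mollifier is large at some scale -/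

def OdeStmt : Prop := ∀ ε : ℝ, 0 < ε → ∃ C : ℝ, 1 ≤ C ∧ ∀ Y A ε₁ ab : ℝ, 1 ≤ Y →
  C * (1 + Real.log Y) ≤ A → 0 < ε₁ → ε₁ ≤ 1 / 2 → 1 ≤ ab → ab ≤ 4 → ∀ᶠ T : ℝ in atTop,
  ∃ S : Set ℝ, volume S ≤ ENNReal.ofReal (ε * T) ∧ ∀ t : ℝ, T ≤ t → t ≤ 2 * T → t ∉ S →
  ∫⁻ x in Set.Icc (0 : ℝ) 1,
    ‖RR T Y ε₁ (t + (ab / Real.log T : ℝ) * x - (A * (ab / Real.log T) : ℝ) * I) -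
      exp (-dp (pc (Y / Real.log T) (A * (ab / Real.log T))) ⌊T ^ (1 / 3 : ℝ)⌋₊ t)‖ₑ ≤
    ENNReal.ofReal
      ((‖exp (-dp (pc (Y / Real.log T) (A * (ab / Real.log T))) ⌊T ^ (1 / 3 : ℝ)⌋₊ t)‖ + 1) / 20)

def ProbStmt : Prop := ∀ ε : ℝ, 0 < ε → ∃ (c : ℝ) (m : ℕ), 0 < c ∧ 1 ≤ m ∧ ∀ᶠ T : ℝ in atTop,
  ∀ P : Fin m → Finset ℕ, (∀ j, ∀ p ∈ P j, p.Prime ∧ (p : ℝ) ≤ T ^ (1 / 4 : ℝ)) →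
  (∀ i j, i ≠ j → Disjoint (P i) (P j)) → (∀ j, 1 ≤ ∑ p ∈ P j, 1 / (p : ℝ)) →
  ∃ S : Set ℝ, volume S ≤ ENNReal.ofReal (ε * T) ∧ ∀ t : ℝ, T ≤ t → t ≤ 2 * T → t ∉ S →
  ∃ j, (ds (fun _ => 1) (P j) t).re ≤ -c * √(∑ p ∈ P j, 1 / (p : ℝ))

def PrimesStmt : Prop := ∃ C : ℝ, 1 ≤ C ∧ ∀ κ κ' : ℝ, 0 < κ → κ < κ' → κ' ≤ 1 / 4 →
  (∀ᶠ T : ℝ in atTop, Real.log (κ' / κ) / C - C ≤ ∑ p ∈ pr T κ κ', 1 / (p : ℝ)) ∧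
  ∀ A : ℝ, 0 ≤ A → A * κ' ≤ 1 → ∀ᶠ T : ℝ in atTop, ∀ α : ℝ, 0 ≤ α → α ≤ 4 * A / Real.log T →
    ∑ d ∈ Finset.Icc 1 ⌊T ^ (1 / 3 : ℝ)⌋₊,
      ‖pc (1 / κ / Real.log T) α d - (if d ∈ pr T κ κ' then 1 else 0)‖ ^ 2 / d ≤
      C * (1 + Real.log (1 / κ'))

def PAStmt : Prop := ∀ ε p A₀ : ℝ, 0 < ε → ∃ (m : ℕ) (Y : Fin m → ℝ) (A : ℝ), A₀ ≤ A ∧ 1 ≤ A ∧
  (m : ℝ) ≤ A ∧ (∀ j, 7 ≤ Y j ∧ Y j ≤ Real.exp A) ∧ ∀ ε₁ ab : ℝ, 0 < ε₁ → ε₁ ≤ 1 / 2 → 1 ≤ ab →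
  ab ≤ 4 → ∀ᶠ T : ℝ in atTop, ∃ S : Set ℝ, volume S ≤ ENNReal.ofReal (ε * T) ∧
  ∀ t : ℝ, T ≤ t → t ≤ 2 * T → t ∉ S → ∃ (j : Fin m) (ρ₀ : ℂ), A ^ p ≤ ‖ρ₀‖ ∧
  ∫⁻ x in Set.Icc (0 : ℝ) 1,
    ‖RR T (Y j) ε₁ (t + (ab / Real.log T : ℝ) * x - (A * (ab / Real.log T) : ℝ) * I) - ρ₀‖ₑ ≤
    ENNReal.ofReal (‖ρ₀‖ / 10)

/-! ### The core statement -/

def GoodStmt : Prop := ∀ ε η K : ℝ, 0 < ε → 0 < η → 1 ≤ K → ∃ δ₁ : ℝ, 0 < δ₁ ∧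
  ∀ ab : ℝ, 3 ≤ ab → ab ≤ Real.pi → Real.pi - ab ≤ δ₁ → ∀ᶠ T : ℝ in atTop,
  ∀ (δ : ℝ) (U : Finset ℝ), ab / Real.log T < δ → Clean T δ U →
  ∃ S : Set ℝ, volume S ≤ ENNReal.ofReal (ε * T) ∧
  ∀ t : ℝ, (1 + η) * T ≤ t → t ≤ (2 - η) * T → t ∉ S → ∀ u ∈ U, ∀ u' ∈ U,
    |u - t| ≤ K * (ab / Real.log T) → |u' - t| ≤ K * (ab / Real.log T) →
    ∃ k : ℤ, |(u' - u) / (ab / Real.log T) - k| ≤ ε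

def MainStmt : Prop := ∀ ε : ℝ, 0 < ε → ∃ δ : ℝ, 0 < δ ∧ ∃ T₀ : ℝ, ∀ T : ℝ, T₀ ≤ T →
  (∃ ρ ρ' : ℂ, riemannZeta ρ = 0 ∧ riemannZeta ρ' = 0 ∧ T ≤ ρ.im ∧ ρ.im ≤ ρ'.im ∧
    ρ'.im ≤ 2 * T ∧ (ρ ≠ ρ' ∨ deriv riemannZeta ρ = 0) ∧
    (∀ σ : ℂ, riemannZeta σ = 0 → ¬ (ρ.im < σ.im ∧ σ.im < ρ'.im)) ∧
    ρ'.im - ρ.im < (1 / 2 - δ) * (2 * Real.pi / Real.log T)) ∨
  ∃ B : Finset ℝ, (B.card : ℝ) ≤ ε * T * Real.log T ∧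
    ∀ ρ ρ' : ℂ, riemannZeta ρ = 0 → riemannZeta ρ' = 0 → T ≤ ρ.im → ρ.im ≤ ρ'.im →
      ρ'.im ≤ 2 * T → ρ.im ∉ B →
      ((∀ σ : ℂ, riemannZeta σ = 0 → ¬ (ρ.im < σ.im ∧ σ.im < ρ'.im)) ∨
        ρ'.im - ρ.im ≤ ε⁻¹ * (2 * Real.pi / Real.log T)) →
      ∃ k : ℤ, |(ρ'.im - ρ.im) * Real.log ρ.im / (2 * Real.pi) - k / 2| < ε

end Pool.Agent.MP_ca0a54_nt.H24
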